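import Pool.Agent.Q120.LG.Stm

/-!
# Project MG: the moments of the gaps of ALL random sets near Cramér's model

`A` is ANY random set of integers, `D_k` the relative entropy (nats) of its law on the block `[2 ^ k, 2 ^ (k + 1))` with respect to
Cramér's model, `g(a)` the gap after `a ∈ A`. Results of the project, assembled from the jobs:
(1) the exponential law of the gaps (`#{a ≤ x : g(a) > t log a} ~ e^(-t) x / log x` for all `t ≥ 0`) holds almost surely for all `A` with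
`D_k ≤ d_k` iff `∑ d_k k / 2 ^ k < ∞`;
(2) for real `q > 1`, `∑_{a ≤ x} g(a) ^ q ~ Γ(q + 1) x log ^ (q - 1) x` almost surely for all these `A` iff `∑ d_k (k / 2 ^ k) ^ (1 / q) < ∞`;
(3) at the level `δ` (`D_k ≤ 2 ^ ((δ + o(1)) k)`, `0 ≤ δ < 1`): (2) holds iff `q δ < 1`, and `∑_{a ≤ x} g(a) ^ q ≤ x ^ (θ + o(1))` for all `A` iff
`max 1 (q δ) ≤ θ`.

Each job is a definition `J_… : Prop`; a theorem `t_… : J_…` is to be proved. The proofs are complete in the docstrings.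
Tools: `Q184.LG.GUP` (`free_le`, `choose_bd`, and the proof of `gup_union` as a pattern), `Q112.LE.Expo` (`tail_up`, `tail_down`), `GM.Free` (`free`,
`real_free`), `GM.Indep` (`indep_many`), `SI.Stm` (`num'`, J_TAIL with its proof `Q299.RZ.t_TAIL`).
-/

set_option autoImplicit false

namespace Pool.Agent.Q120.MG

open Finset MeasureTheory Filter Pool.Agent.Q120.ET Pool.Agent.Q120.GM Pool.Agent.Q120.GE Pool.Agent.Q120.RZ Pool.Agent.Q120.SI
open scoped Topology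

/-- The gap of `S` after `a` (`0` if there is no larger element). -/
noncomputable def gap (S : Set ℕ) (a : ℕ) : ℕ := sInf {n | n ∈ S ∧ a < n} - a

open Classical in
/-- The number of the `a ≤ x` of `S` with `gap > t log a`. -/
noncomputable def Nt (S : Set ℕ) (t : ℝ) (x : ℕ) : ℕ :=
  ((range (x + 1)).filter (fun a => a ∈ S ∧ t * Real.log a < gap S a)).card

open Classical in
/-- The sum of the `q`-th powers of the gaps. -/
noncomputable def Fq (q : ℝ) (S : Set ℕ) (x : ℕ) : ℝ := ∑ a ∈ (range (x + 1)).filter (fun a => a ∈ S), (gap S a : ℝ) ^ q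

/-- The exponential law of the gaps. -/
def GapLaw (S : Set ℕ) : Prop := ∀ t : ℝ, 0 ≤ t → Tendsto (fun x : ℕ => (Nt S t x : ℝ) * Real.log x / x) atTop (𝓝 (Real.exp (-t)))

/-- The asymptotic formula for the `q`-th moment of the gaps. -/
def Mom (q : ℝ) (S : Set ℕ) : Prop :=
  Tendsto (fun x : ℕ => Fq q S x / (x * Real.log x ^ (q - 1))) atTop (𝓝 (Real.Gamma (q + 1)))

open Classical in
/-- The part of `S` in the block. -/
noncomputable def rb (S : Set ℕ) (k : ℕ) : Finset ℕ := (block k).filter (fun n => n ∈ S)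

/-- The next element of `T`, or the end of the block. -/
noncomputable def nxt (k : ℕ) (T : Finset ℕ) (a : ℕ) : ℕ := sInf {n | (n ∈ T ∨ n = 2 ^ (k + 1)) ∧ a < n}

open Classical in
/-- The sum of the `q`-th powers of the lengths larger than `θ k` of the runs of `T ⊆ block k`; `2 ^ k - 1` counts as an element. -/
noncomputable def big (q θ : ℝ) (k : ℕ) (T : Finset ℕ) : ℝ :=
  ∑ a ∈ insert (2 ^ k - 1) T, if θ * k < ((nxt k T a - a : ℕ) : ℝ) then ((nxt k T a - a : ℕ) : ℝ) ^ q else 0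

open Classical in
/-- The number of the `a ∈ T`, `2 ^ k ≤ a < v`, with no element of `T` in `(a, a + t log a]`. -/
noncomputable def cn2 (t : ℝ) (k v : ℕ) (T : Finset ℕ) : ℕ :=
  ((Ico (2 ^ k) v).filter (fun a => a ∈ T ∧ ∀ n ∈ T, ¬ (a < n ∧ (n : ℝ) ≤ a + t * Real.log a))).card

/-- **Job MGL.** The long runs in the model.
Proof. Let `h i = 2 ^ i θ k` (real), `n i` the number of `a ∈ insert (2 ^ k - 1) T` with `nxt - a > h i`, `T = tr A (block k) ω`. The sets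
`Ioo a (nxt a)` are pairwise disjoint, free of `T`, contained in the block, with at least `h i - 1 ≥ h i / 2` elements. Let
`w i = ⌊h i / 8⌋₊` (`≥ 1`, as `θ` is large) and divide the block into the cells `Ico (2 ^ k + j w) (2 ^ k + (j + 1) w)`; each run counted by `n i` contains
a full cell, different runs different cells, there are at most `2 ^ k / w` cells, and `m` given cells are free with probability at most
`exp (-m w / ((k + 1) log 2))` (`free_le` of `Q184.LG.GUP`). So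
`P(n i ≥ m) ≤ choose (2 ^ k / w) m * exp (-m w / ((k + 1) log 2)) ≤ exp (m (1 + log (2 ^ k / (w m)) - 2 ^ i θ / 32))` (`choose_bd`).
Weights: `Z = (2 ^ k / k) ^ (1 / q)`, `r i = 2 ^ i θ / Z`, `η = min 1 ((q - 1) / 2)`, `W i = max (2 ^ (-η i)) (min (r i ^ η) (r i ^ (-η)))`; the sum of
the `W i` over all `i : ℕ` is at most a constant `W₀` which depends only on `η` (two geometric series around `r i = 1`). If
`big q θ k T ≥ ε 2 ^ k k ^ (q - 1)` then for some `i ≤ k` `n i * h (i + 1) ^ q ≥ ε 2 ^ k k ^ (q - 1) W i / W₀`, so `n i ≥ M i` and `n i ≥ 1` with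
`M i = ε W i 2 ^ k / (W₀ 2 ^ q k (2 ^ i θ) ^ q) = (ε / (W₀ 2 ^ q)) W i (2 ^ k / k) / (2 ^ i θ) ^ q`. With `m = max 1 ⌈M i⌉₊`:
`log (2 ^ k / (w m)) ≤ log (2 ^ k / (w M i)) ≤ C + (q - 1) log (2 ^ i θ) + η i log 2` (`W i ≥ 2 ^ (-η i)`), with `C = C(q, ε)`; for a large `θ` (depending on
`q`, `ε`) and all `i` this and the `1` are together at most `2 ^ i θ / 64`. So the probability is at most `exp (-m 2 ^ i θ / 64)`, and
`m 2 ^ i θ ≥ c₀ Z`: if `r i ≥ 1` because `m ≥ 1`; if `r i < 1` because `M i 2 ^ i θ = (ε / (W₀ 2 ^ q)) W i Z ^ q (r i Z) ^ (1 - q) =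
(ε / (W₀ 2 ^ q)) Z * W i * r i ^ (1 - q) ≥ (ε / (W₀ 2 ^ q)) Z` (`W i ≥ r i ^ η`, `η ≤ q - 1`). Finally `(k + 1) exp (-c₀ Z / 64) ≤ exp (-c Z)`
for `c = c₀ / 128` and large `k`. -/
def J_MGL : Prop := ∀ q ε : ℝ, 1 < q → 0 < ε → ∃ θ c : ℝ, 0 < θ ∧ 0 < c ∧ ∀ᶠ k : ℕ in atTop,
  ∀ (Ω : Type) [MeasurableSpace Ω] (μ : Measure Ω) [IsProbabilityMeasure μ] (A : Ω → Set ℕ), IsModel μ pc A →
    μ.real {ω | ε * 2 ^ k * (k : ℝ) ^ (q - 1) ≤ big q θ k (tr A (block k) ω)} ≤ Real.exp (-(c * ((2 : ℝ) ^ k / k) ^ (1 / q)))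

/-- **Job MGU.** The crude bound for all runs in the model.
Proof. `B = max 1 (q β) + ε`. As in MGL with `θ = 1` and without weights: if `big q 0 k T ≥ 2 ^ (B k)` there is an `i ≤ k` such that the
number `n i` of the `a` with `2 ^ i ≤ nxt - a < 2 ^ (i + 1)` satisfies `n i * 2 ^ ((i + 1) q) ≥ 2 ^ (B k) / (k + 1)`. As `n i ≤ 2 ^ k + 1` and `B ≥ 1 + ε`
this is impossible for large `k` if `2 ^ i ≤ k ^ 3`. Let `2 ^ i > k ^ 3`, `m = max 1 ⌈2 ^ (B k - (i + 1) q) / (k + 1)⌉₊`: there are `m` disjoint free windows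
`Ioo a (nxt a)` of at least `2 ^ i - 1` elements in the block, so (as in `gup_union`)
`P ≤ (2 ^ k + 1) ^ m exp (-m (2 ^ i - 1) / ((k + 1) log 2)) ≤ exp (-m 2 ^ i / (4 k))` for large `k`. And
`m 2 ^ i ≥ 2 ^ (B k / q) / (2 ^ q (k + 1))`: if `2 ^ i ≥ 2 ^ (B k / q)` by `m ≥ 1`, otherwise
`2 ^ (B k - (i + 1) q) 2 ^ i = 2 ^ (B k - q - i (q - 1)) ≥ 2 ^ (B k - q - B k (q - 1) / q)`. Since `B / q ≥ β + ε / q` the sum over `i ≤ k` is at most
`exp (-2 ^ ((β + η) k))` for large `k`, `η = ε / (2 q)`. -/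
def J_MGU : Prop := ∀ q β ε : ℝ, 1 < q → 0 ≤ β → 0 < ε → ∃ η : ℝ, 0 < η ∧ ∀ᶠ k : ℕ in atTop,
  ∀ (Ω : Type) [MeasurableSpace Ω] (μ : Measure Ω) [IsProbabilityMeasure μ] (A : Ω → Set ℕ), IsModel μ pc A →
    μ.real {ω | (2 : ℝ) ^ ((max 1 (q * β) + ε) * k) ≤ big q 0 k (tr A (block k) ω)} ≤ Real.exp (-(2 : ℝ) ^ ((β + η) * k))

/-- **Job MGS.** The short gaps in the model.
Proof. Let `L = k log 2` and `T = tr A (block k) ω`. `t = 0`: `cn2` is the number of elements in `Ico (2 ^ k) v` (`J_TAIL`, `Q299.RZ.t_TAIL`, with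
`V = 2 * 2 ^ k / k`, `t = (ε / 2) 2 ^ k / k`; `|∑ pc n - (v - 2 ^ k) / L| ≤ 4 * 2 ^ k / k ^ 2`), union over `v`. `t > 0`: let `h₁ = ⌊t L⌋₊`,
`h₂ = ⌈t (L + log 2)⌉₊`, so `h₁ ≤ t log a ≤ h₂` in the block; `M ≥ 16 (1 + t) / ε`, `w = ⌈M k⌉₊`, cells `C_j = Ico (2 ^ k + j w) (2 ^ k + (j + 1) w)`. For
`h = h₁, h₂` let `X_j` be the number of the `a ∈ C_j ∩ T` with `Ioc a (a + h) ⊆ C_j` free of `T`; `X_j ≤ w / (h + 1) + 1 ≤ B` with a constant `B`. Two
elements `a < a'` of `T` with free windows satisfy `a' > a + h`, so in each cell at most one `a` has a window which leaves the cell; so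
`∑ X_j(h₂) ≤ cn2 ≤ ∑ X_j(h₁) + (number of cells) + B + 2`, the sums over the cells contained in `Ico (2 ^ k) v` (at most `2 ^ k / w` of them). The
events `X_j ≥ b` (fixed `b ≤ B`) are independent (disjoint cells, `indep_many`); `tail_up`, `tail_down` give, for each of the at most `2 ^ k / w + 1`
possible numbers of cells, `|∑_j 1[X_j ≥ b] - ∑_j P(X_j ≥ b)| ≤ (ε / (8 B)) 2 ^ k / k` up to probability `2 exp (-c' 2 ^ k / k)`. The mean of
`X_j` is `∑_a pc a * ∏_{n ∈ Ioc a (a + h)} (1 - pc n)` over `w - h` values of `a`, each term `e^(-t) / L * (1 + O(1 / k))`; so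
`∑_j E X_j = e^(-t) (v - 2 ^ k) / L` up to `2 ^ k / k * (2 h / w + O(1 / k)) + w`, and `h / w ≤ (t + 1) / M`. Union over `b`, `v`. -/
def J_MGS : Prop := ∀ t ε : ℝ, 0 ≤ t → 0 < ε → ∃ c : ℝ, 0 < c ∧ ∀ᶠ k : ℕ in atTop,
  ∀ (Ω : Type) [MeasurableSpace Ω] (μ : Measure Ω) [IsProbabilityMeasure μ] (A : Ω → Set ℕ), IsModel μ pc A →
    μ.real {ω | ∃ v ∈ block k, ε * 2 ^ k / k ≤
      |(cn2 t k v (tr A (block k) ω) : ℝ) - Real.exp (-t) * ((v : ℝ) - 2 ^ k) / (k * Real.log 2)|} ≤ Real.exp (-(c * (2 ^ k / k)))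

/-- **Job MGC.** From the blocks to the law (deterministic).
Proof. The hypothesis with `t = 0` shows that `S` is infinite, so for `a ∈ S` `t log a < gap S a` iff no `n ∈ S` has `a < n ≤ a + t log a`. In the
block `k` `cn2 t k v (rb S k)` counts these `a`, and possibly those `a` whose window contains elements of `S` only beyond the
block; two of them `a < a'` would have `a'` in the window of `a`, so there is at most one. So for `x = v - 1`, `v ∈ block k`,
`Nt S t x = ∑_{j < k} e^(-t) 2 ^ j / (j log 2) + e^(-t) (v - 2 ^ k) / (k log 2) + O(K) + ∑_{j ≤ k} (ε 2 ^ j / j + 1)` and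
`∑_{1 ≤ j < k} 2 ^ j / j ~ 2 ^ k / k` (the summand `v = 2 ^ (j + 1)` for the full block: `v = 2 ^ (j + 1) - 1` and one more element); `log x ~ k log 2`. -/
def J_MGC : Prop := ∀ S : Set ℕ, (∀ t ε : ℝ, 0 ≤ t → 0 < ε → ∀ᶠ k : ℕ in atTop, ∀ v ∈ block k,
    |(cn2 t k v (rb S k) : ℝ) - Real.exp (-t) * ((v : ℝ) - 2 ^ k) / (k * Real.log 2)| < ε * 2 ^ k / k) → GapLaw S

/-- **Job MGB.** The gaps of a block (deterministic).
Proof. Let `a ∈ S` be in block `k`, `g = gap S a > 2 θ (k + 1)`, `b = a + g ∈ S` the next element. If `b < 2 ^ (k + 1)` then `nxt k T a = b`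
(`T = rb S k`). Otherwise `b` is in the block `k + 1`, as this block is met, and the first element of `S` there; `nxt k T a = 2 ^ (k + 1)`,
`nxt (k + 1) T' (2 ^ (k + 1) - 1) = b`, so `g + 1` is the sum of the two run lengths and the larger one is at least `(g + 1) / 2 > θ (k + 1)`;
there is only one such `a` (the last element of `T`). -/
def J_MGB : Prop := ∀ (S : Set ℕ) (q θ : ℝ) (k : ℕ), 0 ≤ q → 0 ≤ θ → 1 ≤ k → (∃ n ∈ S, n ∈ block (k + 1)) →
  ∑ a ∈ rb S k, (if 2 * θ * (k + 1) < (gap S a : ℝ) then (gap S a : ℝ) ^ q else 0) ≤ (2 : ℝ) ^ q * (big q θ k (rb S k) + big q θ (k + 1) (rb S (k + 1)))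

/-- **Job MGD** (uses MGB). From the law to the moments (deterministic).
Proof. Let `ε > 0`, `θ` from the hypothesis, `Θ = 4 θ / log 2 + 1`: for large `k` and `a` in block `k`, `gap > Θ log a` implies `gap > 2 θ (k + 1)`. By MGB
(`S` meets all blocks `≥ K` by the law with `t = 0`) the sum of `gap ^ q` over the `a ≤ x` with `gap > Θ log a` is at most
`C + ∑_{j ≤ k} 2 ^ q (ε 2 ^ j j ^ (q - 1) + ε 2 ^ (j + 1) (j + 1) ^ (q - 1)) ≤ C_q ε x log ^ (q - 1) x` for large `x ∈ block k`. The other part: with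
`φ(y) = min y Θ ^ q = ∫_0^Θ q t ^ (q - 1) 1[t < y] dt`, `∑_{a ≤ x} φ(gap / log a) = ∫_0^Θ q t ^ (q - 1) Nt S t x dt`, and by dominated convergence
(`Nt S t x log x / x → e^(-t)`, bounded by `Nt S 0 x log x / x`) `(log x / x) ∑_{a ≤ x} φ(gap / log a) → ∫_0^Θ q t ^ (q - 1) e^(-t) dt`, which tends to
`q Γ(q) = Γ(q + 1)` as `Θ → ∞`; the `a ≤ κ x` contribute at most `Θ ^ q Nt S 0 (κ x)`, and for `κ x < a ≤ x` `log a = log x (1 + o(1))`; so the sum of
`(log a) ^ q φ(gap / log a)` is `log ^ q x` times the sum of `φ` up to small errors. Finally `(log a) ^ q φ(gap / log a)` is `gap ^ q` if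
`gap ≤ Θ log a`, and for the others it is at most `gap ^ q`, whose sum is small. -/
def J_MGD : Prop := J_MGB → ∀ (S : Set ℕ) (q : ℝ), 1 < q → GapLaw S →
  (∀ ε : ℝ, 0 < ε → ∃ θ : ℝ, 0 < θ ∧ ∀ᶠ k : ℕ in atTop, big q θ k (rb S k) ≤ ε * 2 ^ k * (k : ℝ) ^ (q - 1)) → Mom q S

end Pool.Agent.Q120.MG
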