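import Pool.Agent.Q120.SI.Main
import Pool.Agent.Q120.MGaps.Stm

/-!
# Project MG: holes
-/

set_option autoImplicit false

namespace Pool.Agent.Q120.MG

open Finset MeasureTheory Filter Pool.Agent.Q120.ET Pool.Agent.Q120.GM Pool.Agent.Q120.GE Pool.Agent.Q120.RZ Pool.Agent.Q120.SP
  Pool.Agent.Q120.LG Pool.Agent.Q120.SI
open scoped Topology

/-- **Holes of any length.** If `∑ d k * k / L k` diverges some random set with relative entropies at most `d k` has infinitely many
holes `(2 ^ k, 2 ^ k + L k]`. -/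
theorem some_hole (J : SI.Jobs) {L : ℕ → ℕ} (hL0 : ∀ k, 2 ≤ k → 0 < L k) (hL1 : ∀ k, 2 ≤ k → L k < 2 ^ k) {d : ℕ → ℝ} (hd : ∀ k, 0 ≤ d k)
    (hns : ¬ Summable (fun k : ℕ => d k * k / L k)) :
    SomeModel d (fun S => ∃ᶠ k : ℕ in atTop, ∀ n ∈ S, ¬ (2 ^ k < n ∧ n ≤ 2 ^ k + L k)) := by
  classical
  set I : ℕ → Finset ℕ := fun k => Ioc (2 ^ k) (2 ^ k + L k) with hI
  have hIb : ∀ k, 2 ≤ k → I k ⊆ block k := by
    intro k hk n hn
    rw [hI, mem_Ioc] at hn
    rw [block, mem_Ico, pow_succ]
    have := hL1 k hk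
    omega
  have hIc : ∀ k, ((I k).card : ℝ) = L k := by
    intro k
    rw [hI]
    simp only [Nat.card_Ioc, Nat.add_sub_cancel_left]
  obtain ⟨P, hP⟩ := choose_P J I hIb (fun _ => 1) (fun _ => zero_le_one) (fun _ => le_rfl)
  set q : ℕ → ℝ := fun k => if 2 ≤ k then min 1 (d k * k / (24 * L k)) else 0 with hq
  have hq01 : ∀ k, 0 ≤ q k ∧ q k ≤ 1 := by
    intro k
    rw [hq]
    simp only
    have := hd k
    split_ifs
    · exact ⟨le_min zero_le_one (by positivity), min_le_left _ _⟩
    · exact ⟨le_rfl, zero_le_one⟩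
  obtain ⟨Ω, mΩ, μ, hμ, A, hA, hent, hinf, -⟩ := J.mixb P q (fun k => {T | Disjoint T (I k)})
    (fun k hk => ⟨(hP k hk).1, (hP k hk).2.1⟩) hq01
  have hPE : ∀ k, 2 ≤ k → ∑ T ∈ (block k).powerset with T ∈ {T : Finset ℕ | Disjoint T (I k)}, P k T = 1 := by
    intro k hk
    rw [← (hP k hk).2.1]
    refine sum_subset (filter_subset _ _) (fun T hT hT2 => ?_)
    by_contra h
    exact hT2 (mem_filter.2 ⟨hT, (hP k hk).2.2.2.2 rfl T hT h⟩)
  refine ⟨Ω, mΩ, μ, hμ, A, hA, ?_, ?_⟩
  · intro k hk
    refine (hent k hk).trans ?_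
    have hk0 : (0 : ℝ) < k := by
      have : 0 < k := by omega
      exact_mod_cast this
    have h1 := (hP k hk).2.2.1
    rw [one_pow, one_mul] at h1
    have h2 := sum_pc_le hk (hIb k hk)
    rw [hIc k] at h2
    have h4 : q k ≤ d k * k / (24 * L k) := by
      rw [hq]
      simp only [if_pos hk]
      exact min_le_right _ _
    have hpos : (0 : ℝ) < L k := by exact_mod_cast hL0 k hk
    calc q k * ∑ T ∈ (block k).powerset, P k T * Real.log (P k T / cramerOn (block k) T)
        ≤ q k * (12 * (L k * (2 / k))) := mul_le_mul_of_nonneg_left (by linarith) (hq01 k).1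
      _ ≤ d k * k / (24 * L k) * (12 * (L k * (2 / k))) :=
          mul_le_mul_of_nonneg_right h4 (by positivity)
      _ = d k := by
          field_simp
          ring
  · have h1 : ¬ Summable (fun k => q k * ∑ T ∈ (block k).powerset with T ∈ {T : Finset ℕ | Disjoint T (I k)}, P k T) := by
      intro hs
      have hs2 : Summable q := by
        refine hs.congr (fun k => ?_)
        by_cases hk : 2 ≤ k
        · rw [hPE k hk, mul_one]
        · rw [hq]
          simp only [if_neg hk, zero_mul]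
      apply hns
      have h3 : ∀ᶠ k : ℕ in atTop, q k < 1 := hs2.tendsto_atTop_zero.eventually_lt_const one_pos
      have h4 : Summable (fun k => 24 * q k) := hs2.mul_left 24
      refine Summable.of_norm_bounded_eventually_nat h4 ?_
      filter_upwards [h3, eventually_ge_atTop 2] with k hk hk2
      have h5 : q k = d k * k / (24 * L k) := by
        have h6 : q k = min 1 (d k * k / (24 * L k)) := by
          rw [hq]
          simp only [if_pos hk2]
        rw [h6] at hk ⊢
        rcases min_lt_iff.1 hk with h7 | h7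
        · exact absurd h7 (lt_irrefl _)
        · exact min_eq_right h7.le
      have := hd k
      rw [Real.norm_eq_abs, abs_of_nonneg (by positivity), h5]
      have hpos : (0 : ℝ) < L k := by exact_mod_cast hL0 k hk2
      apply le_of_eq
      field_simp
    filter_upwards [hinf h1] with ω hω
    have h2 : ∃ᶠ k : ℕ in atTop, tr A (block k) ω ∈ {T : Finset ℕ | Disjoint T (I k)} ∧ 2 ≤ k :=
      hω.and_eventually (eventually_ge_atTop 2)
    refine h2.mono (fun k hk n hn hn2 => ?_)
    have h3 : n ∈ I k := by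
      rw [hI, mem_Ioc]
      exact hn2
    exact (Finset.disjoint_left.1 hk.1) (mem_tr.2 ⟨hIb k hk.2 h3, hn⟩) h3

end Pool.Agent.Q120.MG
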