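import Pool.Agent.Q120.MGaps.Main

/-!
# Project MG: the levels
-/

set_option autoImplicit false

namespace Pool.Agent.Q120.MG

open Finset MeasureTheory Filter Pool.Agent.Q120.ET Pool.Agent.Q120.GM Pool.Agent.Q120.GE Pool.Agent.Q120.RZ Pool.Agent.Q120.SP
  Pool.Agent.Q120.LG Pool.Agent.Q120.SI
open scoped Topology

/-- From the thresholds to the levels. -/
theorem level_of_models {δ δ' : ℝ} (h : δ < δ') {E : Set ℕ → Prop} (hE : AllModels (fun k : ℕ => (2 : ℝ) ^ (δ' * k)) E) : AllLevel δ E := by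
  intro Ω _ μ _ A hA hD
  refine hE Ω μ A hA ?_
  filter_upwards [hD (δ' - δ) (by linarith)] with k hk
  refine hk.trans (le_of_eq ?_)
  congr 2
  ring

theorem not_level_of_model {δ δ' : ℝ} (h : δ' ≤ δ) {E : Set ℕ → Prop} (hE : SomeModel (fun k : ℕ => (2 : ℝ) ^ (δ' * k)) (fun S => ¬ E S)) :
    ¬ AllLevel δ E := by
  intro hall
  obtain ⟨Ω, m, μ, hμ, A, hA, h1, h2⟩ := hE
  have h3 := hall Ω μ A hA (fun ε hε => by
    filter_upwards [eventually_ge_atTop 2] with k hk
    refine (h1 k hk).trans (Real.rpow_le_rpow_of_exponent_le (by norm_num) ?_)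
    have : (0 : ℝ) ≤ k := Nat.cast_nonneg k
    nlinarith)
  obtain ⟨ω, h4, h5⟩ := (h3.and h2).exists
  exact h5 h4

theorem two_rpow_ratio (q : ℝ) (k : ℕ) : ((k : ℝ) / 2 ^ k) ^ (1 / q) = (k : ℝ) ^ (1 / q) / (2 : ℝ) ^ (1 / q * k) := by
  rw [Real.div_rpow (Nat.cast_nonneg k) (by positivity), ← Real.rpow_natCast 2 k, ← Real.rpow_mul (by norm_num), mul_comm (k : ℝ) (1 / q)]

theorem summable_level {q δ : ℝ} (hq : 1 ≤ q) (h : δ < 1 / q) :
    Summable (fun k : ℕ => (2 : ℝ) ^ (δ * k) * ((k : ℝ) / 2 ^ k) ^ (1 / q)) := by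
  have h1 := SI.summable_pow_div (show (0 : ℝ) < 1 / q - δ by linarith) 1
  refine Summable.of_norm_bounded_eventually_nat h1 ?_
  filter_upwards [eventually_ge_atTop 1] with k hk
  have hk0 : (1 : ℝ) ≤ k := by exact_mod_cast hk
  rw [Real.norm_eq_abs, abs_of_nonneg (by positivity), two_rpow_ratio, ← mul_div_assoc, pow_one]
  have h2 : (k : ℝ) ^ (1 / q) ≤ k := by
    calc (k : ℝ) ^ (1 / q) ≤ (k : ℝ) ^ (1 : ℝ) := by
          apply Real.rpow_le_rpow_of_exponent_le hk0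
          rw [div_le_one (by linarith)]
          exact hq
      _ = k := Real.rpow_one _
  have h3 : (2 : ℝ) ^ (1 / q * k) = (2 : ℝ) ^ ((1 / q - δ) * k) * (2 : ℝ) ^ (δ * k) := by
    rw [← Real.rpow_add (by norm_num)]
    congr 1
    ring
  rw [h3, div_le_div_iff₀ (by positivity) (by positivity)]
  calc (2 : ℝ) ^ (δ * k) * (k : ℝ) ^ (1 / q) * (2 : ℝ) ^ ((1 / q - δ) * k)
      = (k : ℝ) ^ (1 / q) * ((2 : ℝ) ^ ((1 / q - δ) * k) * (2 : ℝ) ^ (δ * k)) := by ring
    _ ≤ k * ((2 : ℝ) ^ ((1 / q - δ) * k) * (2 : ℝ) ^ (δ * k)) := mul_le_mul_of_nonneg_right h2 (by positivity)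

theorem not_summable_level {q δ : ℝ} (hq : 0 < q) (h : 1 / q ≤ δ) :
    ¬ Summable (fun k : ℕ => (2 : ℝ) ^ (δ * k) * ((k : ℝ) / 2 ^ k) ^ (1 / q)) := by
  intro hs
  have h1 := hs.tendsto_atTop_zero
  have h2 : ∀ᶠ k : ℕ in atTop, (1 : ℝ) ≤ (2 : ℝ) ^ (δ * k) * ((k : ℝ) / 2 ^ k) ^ (1 / q) := by
    filter_upwards [eventually_ge_atTop 1] with k hk
    have hk0 : (1 : ℝ) ≤ k := by exact_mod_cast hk
    rw [two_rpow_ratio, ← mul_div_assoc, le_div_iff₀ (by positivity), one_mul]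
    have h3 : (2 : ℝ) ^ (1 / q * k) ≤ (2 : ℝ) ^ (δ * k) :=
      Real.rpow_le_rpow_of_exponent_le (by norm_num) (mul_le_mul_of_nonneg_right h (by linarith))
    have h4 : (1 : ℝ) ≤ (k : ℝ) ^ (1 / q) := Real.one_le_rpow hk0 (by positivity)
    have h5 : (0 : ℝ) < (2 : ℝ) ^ (δ * k) := by positivity
    nlinarith
  obtain ⟨k, h3, h4⟩ := ((h1.eventually_lt_const (show (0 : ℝ) < 1 by norm_num)).and h2).exists
  linarith

/-- **(3) The level of the moments.** -/
theorem mom_level (J : MJobs) {q δ : ℝ} (hq : 1 < q) (hδ : 0 ≤ δ) : AllLevel δ (Mom q) ↔ q * δ < 1 := by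
  have hq0 : 0 < q := by linarith
  constructor
  · intro h
    by_contra h1
    rw [not_lt] at h1
    have h2 : 1 / q ≤ δ := by
      rw [div_le_iff₀ hq0]
      linarith
    exact not_level_of_model le_rfl (some_notMom J hq (fun k => by positivity) (not_summable_level hq0 h2)) h
  · intro h
    have h2 : δ < 1 / q := by
      rw [lt_div_iff₀ hq0]
      linarith
    obtain ⟨δ', h3, h4⟩ := exists_between h2
    exact level_of_models h3 (all_mom J hq (fun k => by positivity) (summable_level hq.le h4))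

theorem gapLaw_level (J : MJobs) {δ : ℝ} (hδ : 0 ≤ δ) : AllLevel δ GapLaw ↔ δ < 1 := by
  constructor
  · intro h
    by_contra h1
    rw [not_lt] at h1
    have hns : ¬ Summable (fun k : ℕ => (2 : ℝ) ^ (δ * k) * k / 2 ^ k) := by
      intro hs
      refine not_summable_level (q := 1) (δ := δ) one_pos (by rw [div_one]; exact h1) (hs.congr (fun k => ?_))
      rw [div_one, Real.rpow_one, mul_div_assoc]
    refine not_level_of_model (δ' := δ) le_rfl ?_ h
    refine (some_hole J.si (L := fun k => 2 ^ (k - 1)) (fun k hk => by positivity) (fun k hk => ?_) (fun k => by positivity)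
      (sum_half hns)).mono (fun S hS hG => not_gapLaw_of_holes hS hG)
    exact Nat.pow_lt_pow_right (by norm_num) (by omega)
  · intro h
    obtain ⟨δ', h3, h4⟩ := exists_between h
    refine level_of_models h3 (all_gapLaw J (fun k => by positivity) ?_)
    refine (summable_level (q := 1) le_rfl (by rw [div_one]; exact h4)).congr (fun k => ?_)
    rw [div_one, Real.rpow_one, mul_div_assoc]

/-- An empty block gives a long run. -/
theorem big_of_empty {S : Set ℕ} {q : ℝ} {k : ℕ} (hq : 0 ≤ q) (h : ¬ ∃ n ∈ S, n ∈ block k) : ((2 : ℝ) ^ k) ^ q ≤ big q 0 k (rb S k) := by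
  classical
  have h1 : rb S k = ∅ := by
    unfold rb
    rw [filter_eq_empty_iff]
    exact fun n hn hnS => h ⟨n, hnS, hn⟩
  have h2 : nxt k ∅ (2 ^ k - 1) = 2 ^ (k + 1) := by
    unfold nxt
    have h3 : {n | (n ∈ (∅ : Finset ℕ) ∨ n = 2 ^ (k + 1)) ∧ 2 ^ k - 1 < n} = {2 ^ (k + 1)} := by
      ext n
      simp only [notMem_empty, false_or, Set.mem_setOf_eq, Set.mem_singleton_iff]
      constructor
      · exact fun h => h.1
      · intro h
        refine ⟨h, ?_⟩
        rw [h, pow_succ]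
        have : 0 < 2 ^ k := by positivity
        omega
    rw [h3, csInf_singleton]
  have h3 : 2 ^ k ≤ nxt k ∅ (2 ^ k - 1) - (2 ^ k - 1) := by
    rw [h2, pow_succ]
    omega
  have h4 : ((2 : ℝ) ^ k) ≤ ((nxt k ∅ (2 ^ k - 1) - (2 ^ k - 1) : ℕ) : ℝ) := by exact_mod_cast h3
  unfold big
  rw [h1]
  rw [show insert (2 ^ k - 1) (∅ : Finset ℕ) = {2 ^ k - 1} from rfl, sum_singleton, if_pos]
  · exact Real.rpow_le_rpow (by positivity) h4 hq
  · rw [zero_mul]
    have : (0 : ℝ) < 2 ^ k := by positivity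
    linarith

/-- From the blocks to the moments. -/
theorem momUp_of_big (J : MJobs) {S : Set ℕ} {q B : ℝ} (hq : 1 < q) (hB : 1 ≤ B)
    (h : ∀ ε : ℝ, 0 < ε → ∀ᶠ k : ℕ in atTop, big q 0 k (rb S k) < (2 : ℝ) ^ ((B + ε) * k)) (hBq : B < q) : MomUp q B S := by
  classical
  intro ε hε
  have hq0 : 0 ≤ q := by linarith
  set ε' : ℝ := min (ε / 2) ((q - B) / 2) with hε'
  have hε0 : 0 < ε' := lt_min (by positivity) (by linarith)
  have hε1 : ε' ≤ ε / 2 := min_le_left _ _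
  have hε2 : ε' ≤ (q - B) / 2 := min_le_right _ _
  obtain ⟨K, hK⟩ := eventually_atTop.1 ((h ε' hε0).and (eventually_ge_atTop 1))
  -- all blocks from `K` on are met
  have hmeet : ∀ k, K ≤ k → ∃ n ∈ S, n ∈ block k := by
    intro k hk
    by_contra h1
    have h2 := big_of_empty hq0 h1
    have h3 := (hK k hk).1
    have h4 : (2 : ℝ) ^ ((B + ε') * k) ≤ ((2 : ℝ) ^ k) ^ q := by
      rw [← Real.rpow_natCast 2 k, ← Real.rpow_mul (by norm_num)]
      apply Real.rpow_le_rpow_of_exponent_le (by norm_num)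
      have hk0 : (0 : ℝ) ≤ k := Nat.cast_nonneg k
      rw [mul_comm (k : ℝ) q]
      apply mul_le_mul_of_nonneg_right _ hk0
      linarith
    linarith
  -- the sum over one block
  have hblock : ∀ k, K ≤ k → ∑ a ∈ rb S k, (gap S a : ℝ) ^ q ≤ (2 : ℝ) ^ q * (2 * (2 : ℝ) ^ ((B + ε') * (k + 1))) := by
    intro k hk
    have h1 := J.mgb S q 0 k hq0 le_rfl (hK k hk).2 (hmeet (k + 1) (by omega))
    have h2 : ∑ a ∈ rb S k, (gap S a : ℝ) ^ q =
        ∑ a ∈ rb S k, (if 2 * (0 : ℝ) * (k + 1) < (gap S a : ℝ) then (gap S a : ℝ) ^ q else 0) := by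
      refine sum_congr rfl (fun a ha => ?_)
      rw [mul_zero, zero_mul]
      split_ifs with h3
      · rfl
      · rw [not_lt] at h3
        have h4 : (gap S a : ℝ) = 0 := le_antisymm h3 (Nat.cast_nonneg _)
        rw [h4, Real.zero_rpow (by linarith)]
    rw [h2]
    refine h1.trans (mul_le_mul_of_nonneg_left ?_ (by positivity))
    have h3 := (hK k hk).1
    have h4 := (hK (k + 1) (by omega)).1
    push_cast at h4
    have h5 : (2 : ℝ) ^ ((B + ε') * k) ≤ (2 : ℝ) ^ ((B + ε') * (k + 1)) := by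
      apply Real.rpow_le_rpow_of_exponent_le (by norm_num)
      apply mul_le_mul_of_nonneg_left (by linarith) (by linarith)
    linarith
  -- the sum up to `x`
  set M : ℝ := ∑ a ∈ (range (2 ^ K)).filter (fun a => a ∈ S), (gap S a : ℝ) ^ q with hM
  have hM0 : 0 ≤ M := sum_nonneg (fun i _ => by positivity)
  have hcover : ∀ k, ∀ x ∈ block k, Fq q S x ≤ M + ∑ j ∈ Ico K (k + 1), ∑ a ∈ rb S j, (gap S a : ℝ) ^ q := by
    intro k x hx
    rw [block, mem_Ico] at hx
    unfold Fq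
    have hsub : (range (x + 1)).filter (fun a => a ∈ S) ⊆
        (range (2 ^ K)).filter (fun a => a ∈ S) ∪ (Ico K (k + 1)).biUnion (fun j => rb S j) := by
      intro a ha
      rw [mem_filter, mem_range] at ha
      rw [mem_union]
      rcases lt_or_ge a (2 ^ K) with h1 | h1
      · exact Or.inl (mem_filter.2 ⟨mem_range.2 h1, ha.2⟩)
      · right
        rw [mem_biUnion]
        have ha0 : a ≠ 0 := by
          have : 0 < 2 ^ K := by positivity
          omega
        refine ⟨Nat.log 2 a, ?_, ?_⟩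
        · rw [mem_Ico]
          refine ⟨Nat.le_log_of_pow_le (by norm_num) h1, ?_⟩
          rw [Nat.lt_succ_iff]
          have h2 : Nat.log 2 a < k + 1 := Nat.log_lt_of_lt_pow ha0 (by omega)
          omega
        · unfold rb
          rw [mem_filter, block, mem_Ico]
          exact ⟨⟨Nat.pow_log_le_self 2 ha0, Nat.lt_pow_succ_log_self (by norm_num) a⟩, ha.2⟩
    refine (sum_le_sum_of_subset_of_nonneg hsub (fun i _ _ => by positivity)).trans ?_
    have hun : ∑ a ∈ (range (2 ^ K)).filter (fun a => a ∈ S) ∪ (Ico K (k + 1)).biUnion (fun j => rb S j), (gap S a : ℝ) ^ q ≤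
        ∑ a ∈ (range (2 ^ K)).filter (fun a => a ∈ S), (gap S a : ℝ) ^ q +
          ∑ a ∈ (Ico K (k + 1)).biUnion (fun j => rb S j), (gap S a : ℝ) ^ q := by
      have h1 := sum_union_inter (s₁ := (range (2 ^ K)).filter (fun a => a ∈ S)) (s₂ := (Ico K (k + 1)).biUnion (fun j => rb S j))
        (f := fun a => (gap S a : ℝ) ^ q)
      have h2 : 0 ≤ ∑ a ∈ (range (2 ^ K)).filter (fun a => a ∈ S) ∩ (Ico K (k + 1)).biUnion (fun j => rb S j), (gap S a : ℝ) ^ q :=
        sum_nonneg (fun i _ => by positivity)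
      linarith
    refine hun.trans (add_le_add le_rfl ?_)
    rw [sum_biUnion]
    intro i _ j _ hij
    rw [Function.onFun, Finset.disjoint_left]
    intro a ha ha'
    unfold rb at ha ha'
    rw [mem_filter, block, mem_Ico] at ha ha'
    rcases Nat.lt_or_gt_of_ne hij with h1 | h1
    · have h2 : 2 ^ (i + 1) ≤ 2 ^ j := Nat.pow_le_pow_right (by norm_num) h1
      omega
    · have h2 : 2 ^ (j + 1) ≤ 2 ^ i := Nat.pow_le_pow_right (by norm_num) h1
      omega
  have hgrow := SI.ev_pow_le (show (0 : ℝ) < ε / 2 by positivity) 1 (2 * (M + (2 : ℝ) ^ q * (2 * (2 : ℝ) ^ (B + ε'))))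
  have hlog : Tendsto (Nat.log 2) atTop atTop := SP.tendsto_natLog
  filter_upwards [hlog.eventually (hgrow.and (eventually_ge_atTop (max K 1))), eventually_ge_atTop 1] with x hx hx1
  set k := Nat.log 2 x with hk
  have hxb : x ∈ block k := SP.mem_block_log hx1
  obtain ⟨h1, h2⟩ := hx
  have hk1 : (1 : ℝ) ≤ k := by
    have : 1 ≤ k := (le_max_right _ _).trans h2
    exact_mod_cast this
  have h3 : ∑ j ∈ Ico K (k + 1), ∑ a ∈ rb S j, (gap S a : ℝ) ^ q ≤ (k + 1) * ((2 : ℝ) ^ q * (2 * (2 : ℝ) ^ ((B + ε') * (k + 1)))) := by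
    calc ∑ j ∈ Ico K (k + 1), ∑ a ∈ rb S j, (gap S a : ℝ) ^ q
        ≤ ∑ j ∈ Ico K (k + 1), ((2 : ℝ) ^ q * (2 * (2 : ℝ) ^ ((B + ε') * (k + 1)))) := by
          refine sum_le_sum (fun j hj => ?_)
          rw [mem_Ico] at hj
          refine (hblock j hj.1).trans ?_
          have h4 : (2 : ℝ) ^ ((B + ε') * ((j : ℝ) + 1)) ≤ (2 : ℝ) ^ ((B + ε') * (k + 1)) := by
            apply Real.rpow_le_rpow_of_exponent_le (by norm_num)
            apply mul_le_mul_of_nonneg_left _ (by linarith)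
            have : (j : ℝ) ≤ k := by exact_mod_cast (by omega : j ≤ k)
            linarith
          have h5 : (0 : ℝ) < (2 : ℝ) ^ q := by positivity
          nlinarith
      _ = ((Ico K (k + 1)).card : ℝ) * ((2 : ℝ) ^ q * (2 * (2 : ℝ) ^ ((B + ε') * (k + 1)))) := by rw [sum_const, nsmul_eq_mul]
      _ ≤ _ := by
          refine mul_le_mul_of_nonneg_right ?_ (by positivity)
          rw [Nat.card_Ico]
          have : k + 1 - K ≤ k + 1 := Nat.sub_le _ _
          exact_mod_cast this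
  have h4 : (2 : ℝ) ^ ((B + ε') * (k + 1)) = (2 : ℝ) ^ (B + ε') * (2 : ℝ) ^ ((B + ε') * k) := by
    rw [← Real.rpow_add (by norm_num)]
    congr 1
    ring
  have h5 : (1 : ℝ) ≤ (2 : ℝ) ^ ((B + ε') * k) := Real.one_le_rpow (by norm_num) (by have : 0 ≤ B + ε' := by linarith
                                                                                     positivity)
  have h6 : (2 : ℝ) ^ k ≤ x := by
    rw [block, mem_Ico] at hxb
    exact_mod_cast hxb.1
  have hD : (0 : ℝ) < (2 : ℝ) ^ q * (2 * (2 : ℝ) ^ (B + ε')) := by positivity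
  rw [pow_one] at h1
  calc Fq q S x ≤ M + (k + 1) * ((2 : ℝ) ^ q * (2 * (2 : ℝ) ^ ((B + ε') * (k + 1)))) := (hcover k x hxb).trans (by linarith)
    _ = M + (k + 1) * ((2 : ℝ) ^ q * (2 * (2 : ℝ) ^ (B + ε'))) * (2 : ℝ) ^ ((B + ε') * k) := by
        rw [h4]
        ring
    _ ≤ (2 * (M + (2 : ℝ) ^ q * (2 * (2 : ℝ) ^ (B + ε'))) * k) * (2 : ℝ) ^ ((B + ε') * k) := by
        have h7 : M ≤ M * k * (2 : ℝ) ^ ((B + ε') * k) := by
          calc M = M * 1 * 1 := by ring
            _ ≤ M * k * (2 : ℝ) ^ ((B + ε') * k) := by gcongr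
        have h8 : ((k : ℝ) + 1) * ((2 : ℝ) ^ q * (2 * (2 : ℝ) ^ (B + ε'))) ≤ 2 * k * ((2 : ℝ) ^ q * (2 * (2 : ℝ) ^ (B + ε'))) :=
          mul_le_mul_of_nonneg_right (by linarith) hD.le
        have h9 := mul_le_mul_of_nonneg_right h8 (show (0 : ℝ) ≤ (2 : ℝ) ^ ((B + ε') * k) by positivity)
        have h10 : 0 ≤ M * k * (2 : ℝ) ^ ((B + ε') * k) := by positivity
        linarith
    _ ≤ (2 : ℝ) ^ (ε / 2 * k) * (2 : ℝ) ^ ((B + ε') * k) := mul_le_mul_of_nonneg_right h1 (by positivity)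
    _ = ((2 : ℝ) ^ k) ^ (ε / 2 + (B + ε')) := by
        rw [← Real.rpow_add (by norm_num), ← Real.rpow_natCast 2 k, ← Real.rpow_mul (by norm_num)]
        congr 1
        ring
    _ ≤ (x : ℝ) ^ (ε / 2 + (B + ε')) := Real.rpow_le_rpow (by positivity) h6 (by linarith)
    _ ≤ (x : ℝ) ^ (B + ε) := by
        apply Real.rpow_le_rpow_of_exponent_le _ (by linarith)
        exact_mod_cast hx1

/-- **(4), upper bound.** -/
theorem all_momUp (J : MJobs) {q δ θ : ℝ} (hq : 1 < q) (hδ : 0 ≤ δ) (hδ1 : δ < 1) (hθ : max 1 (q * δ) ≤ θ) : AllLevel δ (MomUp q θ) := by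
  classical
  intro Ω _ μ _ A hA hD
  set B : ℝ := max 1 (q * δ) with hB
  have h1 : ∀ n : ℕ, ∀ᵐ ω ∂μ, ∀ᶠ k : ℕ in atTop, ¬ (2 : ℝ) ^ ((B + 1 / ((n : ℝ) + 1)) * k) ≤ big q 0 k (tr A (block k) ω) := by
    intro n
    obtain ⟨η, hη, h2⟩ := J.mgu q δ (1 / ((n : ℝ) + 1)) hq hδ (by positivity)
    refine bc_ent J.si hA (fun k T => (2 : ℝ) ^ ((B + 1 / ((n : ℝ) + 1)) * k) ≤ big q 0 k T)
      (fun k => 1 / 2 * (2 : ℝ) ^ ((δ + η) * k)) (fun k => (2 : ℝ) ^ ((δ + η / 2) * k)) (Eventually.of_forall (fun k => by positivity))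
      (hD (η / 2) (by positivity)) ?_ ?_
    · filter_upwards [h2] with k hk Ω' _ μ' _ A' hA'
      refine (hk Ω' μ' A' hA').trans (le_of_eq ?_)
      congr 1
      ring
    · refine small_ratio (by norm_num) (fun k => by positivity) (Eventually.of_forall (fun k => by positivity)) ?_ ?_
      · refine (SI.summable_pow_div (show (0 : ℝ) < η / 2 by positivity) 0).congr (fun k => ?_)
        rw [pow_zero, div_eq_div_iff (by positivity) (by positivity), one_mul, ← Real.rpow_add (by norm_num)]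
        congr 1
        ring
      · refine Summable.of_nonneg_of_le (fun k => by positivity) (fun k => ?_) (SI.summable_pow_div hη 0)
        rw [pow_zero]
        apply one_div_le_one_div_of_le (by positivity)
        apply Real.rpow_le_rpow_of_exponent_le (by norm_num)
        exact mul_le_mul_of_nonneg_right (by linarith) (Nat.cast_nonneg k)
  filter_upwards [ae_all_iff.2 h1] with ω hω
  have h2 : MomUp q B (A ω) := by
    refine momUp_of_big J hq (le_max_left _ _) (fun ε hε => ?_) (max_lt hq ?_)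
    · obtain ⟨n, hn⟩ := exists_nat_one_div_lt hε
      filter_upwards [hω n] with k hk
      rw [tr_eq_rb, not_le] at hk
      refine hk.trans_le (Real.rpow_le_rpow_of_exponent_le (by norm_num) ?_)
      exact mul_le_mul_of_nonneg_right (by linarith) (Nat.cast_nonneg k)
    · nlinarith
  intro ε hε
  filter_upwards [h2 ε hε, eventually_ge_atTop 1] with x hx hx1
  refine hx.trans (Real.rpow_le_rpow_of_exponent_le (by exact_mod_cast hx1) (by linarith))

theorem infinite_of_gapLaw {S : Set ℕ} (h : GapLaw S) : ∀ N : ℕ, ∃ n ∈ S, N < n := by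
  classical
  intro N
  by_contra hN
  push Not at hN
  have h0 := h 0 le_rfl
  rw [neg_zero, Real.exp_zero] at h0
  have h1 : Tendsto (fun x : ℕ => (Nt S 0 x : ℝ) * Real.log x / x) atTop (𝓝 0) := by
    have h2 : Tendsto (fun x : ℕ => ((N : ℝ) + 1) * (Real.log x / x)) atTop (𝓝 0) := by
      have h3 : Tendsto (fun x : ℝ => Real.log x / x) atTop (𝓝 0) := by
        have := Real.isLittleO_log_id_atTop.tendsto_div_nhds_zero
        exact this
      have h4 := (h3.comp tendsto_natCast_atTop_atTop).const_mul ((N : ℝ) + 1)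
      rw [mul_zero] at h4
      exact h4
    refine tendsto_of_tendsto_of_tendsto_of_le_of_le' tendsto_const_nhds h2 ?_ ?_
    · filter_upwards [eventually_ge_atTop 1] with x hx
      have hl : 0 ≤ Real.log x := Real.log_natCast_nonneg x
      positivity
    · filter_upwards [eventually_ge_atTop 1] with x hx
      have hl : 0 ≤ Real.log x := Real.log_natCast_nonneg x
      rw [mul_div_assoc]
      apply mul_le_mul_of_nonneg_right _ (by positivity)
      have h3 : Nt S 0 x ≤ N + 1 := by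
        unfold Nt
        refine (card_le_card (t := range (N + 1)) (fun a ha => ?_)).trans (card_range _).le
        rw [mem_filter] at ha
        rw [mem_range]
        have := hN a ha.2.1
        omega
      exact_mod_cast h3
  have h2 := tendsto_nhds_unique h0 h1
  norm_num at h2

/-- **(4), holes.** -/
theorem some_large (J : MJobs) {q δ : ℝ} (hq : 1 < q) (hδ : 0 < δ) (hδ1 : δ < 1) :
    SomeModel (fun k : ℕ => (2 : ℝ) ^ (δ * k)) (fun S => ∀ θ : ℝ, θ < q * δ → ¬ MomUp q θ S) := by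
  have hq0 : 0 ≤ q := by linarith
  set L : ℕ → ℕ := fun k => max 1 (min (2 ^ k - 1) ⌊(2 : ℝ) ^ (δ * k) / 2⌋₊) with hL
  have hL1 : ∀ᶠ k : ℕ in atTop, (L k : ℝ) ≤ (2 : ℝ) ^ (δ * k) ∧ (2 : ℝ) ^ (δ * k) ≤ 4 * L k := by
    have h1 := SI.ev_pow_le hδ 0 2
    filter_upwards [h1, eventually_ge_atTop 1] with k hk hk1
    rw [pow_zero, mul_one] at hk
    have h2k : (1 : ℝ) ≤ 2 ^ k := one_le_pow₀ (by norm_num)
    have h2 : (2 : ℝ) ^ (δ * k) ≤ 2 ^ k := by
      rw [← Real.rpow_natCast 2 k]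
      apply Real.rpow_le_rpow_of_exponent_le (by norm_num)
      have : (0 : ℝ) ≤ k := Nat.cast_nonneg k
      nlinarith
    set X : ℝ := (2 : ℝ) ^ (δ * k) / 2 with hX
    have hX1 : 1 ≤ X := by
      rw [hX]
      linarith
    have h8 : 1 ≤ ⌊X⌋₊ := by
      rw [Nat.one_le_floor_iff]
      exact hX1
    have h7 : ⌊X⌋₊ ≤ 2 ^ k - 1 := by
      have h3 : (⌊X⌋₊ : ℝ) ≤ X := Nat.floor_le (by linarith)
      have h4 : ((⌊X⌋₊ + 1 : ℕ) : ℝ) ≤ ((2 ^ k : ℕ) : ℝ) := by
        push_cast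
        linarith
      have h5 : ⌊X⌋₊ + 1 ≤ 2 ^ k := by exact_mod_cast h4
      omega
    have h9 : L k = ⌊X⌋₊ := by
      rw [hL]
      simp only
      rw [← hX, min_eq_right h7, max_eq_right h8]
    rw [h9]
    have h3 : (⌊X⌋₊ : ℝ) ≤ X := Nat.floor_le (by linarith)
    have h10 := (Nat.lt_floor_add_one X).le
    have h11 : (1 : ℝ) ≤ ⌊X⌋₊ := by exact_mod_cast h8
    constructor <;> linarith
  have hns : ¬ Summable (fun k : ℕ => (2 : ℝ) ^ (δ * k) * k / L k) := by
    intro hs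
    have h1 := hs.tendsto_atTop_zero
    obtain ⟨k, ⟨h2, h3⟩, h4⟩ := (((h1.eventually_lt_const (show (0 : ℝ) < 1 by norm_num)).and hL1).and (eventually_ge_atTop 1)).exists
    have hk0 : (1 : ℝ) ≤ k := by exact_mod_cast h4
    have hLpos : (0 : ℝ) < L k := by
      have : 0 < L k := by
        rw [hL]
        simp only
        omega
      exact_mod_cast this
    rw [div_lt_one hLpos] at h2
    have h5 : (0 : ℝ) < (2 : ℝ) ^ (δ * k) := by positivity
    nlinarith [h3.1]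
  obtain ⟨Ω, mΩ, μ, hμ, A, hA, h1, h2⟩ := some_hole J.si (L := L) (fun k _ => by rw [hL]; simp only; omega) (fun k hk => by
    rw [hL]
    simp only
    have : 2 ^ 2 ≤ 2 ^ k := Nat.pow_le_pow_right (by norm_num) hk
    omega) (fun k => by positivity) hns
  have hG : AllModels (fun k : ℕ => (2 : ℝ) ^ (δ * k)) GapLaw := by
    refine all_gapLaw J (fun k => by positivity) ?_
    refine (summable_level (q := 1) le_rfl (by rw [div_one]; exact hδ1)).congr (fun k => ?_)
    rw [div_one, Real.rpow_one, mul_div_assoc]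
  refine ⟨Ω, mΩ, μ, hμ, A, hA, h1, ?_⟩
  filter_upwards [h2, hG Ω μ A hA (by filter_upwards [eventually_ge_atTop 2] with k hk; exact h1 k hk)] with ω hω hω2 θ hθ hM
  have hinf := infinite_of_gapLaw hω2
  obtain ⟨a0, ha0, -⟩ := hinf 0
  set ε : ℝ := (q * δ - θ) / 2 with hε
  have hε0 : 0 < ε := by
    rw [hε]
    linarith
  have hx1 : Tendsto (fun k : ℕ => 2 ^ k) atTop (atTop : Filter ℕ) := tendsto_pow_atTop_atTop_of_one_lt (by norm_num)
  have h3 := hx1.eventually (hM ε hε0)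
  have h4 := SI.ev_pow_le hε0 0 (2 * (4 : ℝ) ^ q)
  obtain ⟨k, ⟨⟨⟨⟨hk1, hk2⟩, hk3⟩, hk4⟩, hk5⟩⟩ :=
    ((((hω.and_eventually h3).and_eventually hL1).and_eventually h4).and_eventually (eventually_ge_atTop a0)).exists
  have hk6 : a0 ≤ 2 ^ k := by
    have h5 : k < 2 ^ k := Nat.lt_two_pow_self
    omega
  have h5 := Fq_ge_of_hole hq0 hk1 ⟨a0, ha0, hk6⟩ (hinf (2 ^ k))
  push_cast at hk2
  have h6 : ((2 : ℝ) ^ k) ^ (θ + ε) = (2 : ℝ) ^ ((θ + ε) * k) := by
    rw [← Real.rpow_natCast 2 k, ← Real.rpow_mul (by norm_num)]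
    congr 1
    ring
  rw [h6] at hk2
  have h7 : (2 : ℝ) ^ (q * δ * k) ≤ (4 : ℝ) ^ q * (L k : ℝ) ^ q := by
    have h8 := Real.rpow_le_rpow (by positivity) hk3.2 hq0
    rw [Real.mul_rpow (by norm_num) (by positivity), ← Real.rpow_mul (by norm_num)] at h8
    refine le_trans (le_of_eq ?_) h8
    congr 1
    ring
  have h8 : (4 : ℝ) ^ q * (L k : ℝ) ^ q ≤ (4 : ℝ) ^ q * (2 : ℝ) ^ ((θ + ε) * k) :=
    mul_le_mul_of_nonneg_left (h5.trans hk2) (by positivity)
  rw [pow_zero, mul_one] at hk4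
  have h9 : (2 : ℝ) ^ (q * δ * k) = (2 : ℝ) ^ (ε * k) * (2 : ℝ) ^ ((θ + ε) * k) := by
    rw [← Real.rpow_add (by norm_num)]
    congr 1
    rw [hε]
    ring
  have h10 : 2 * (4 : ℝ) ^ q * (2 : ℝ) ^ ((θ + ε) * k) ≤ (2 : ℝ) ^ (ε * k) * (2 : ℝ) ^ ((θ + ε) * k) :=
    mul_le_mul_of_nonneg_right hk4 (by positivity)
  have h11 : (0 : ℝ) < (4 : ℝ) ^ q * (2 : ℝ) ^ ((θ + ε) * k) := by positivity
  linarith

/-- The classes are not empty. -/
theorem some_of_allModels (J : SI.Jobs) {d : ℕ → ℝ} (hd : ∀ k, 0 ≤ d k) {E : Set ℕ → Prop} (h : AllModels d E) : SomeModel d E := by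
  classical
  obtain ⟨Ω, mΩ, μ, hμ, A, hA, hent, -, -⟩ := J.mixb (fun k T => cramerOn (block k) T) (fun _ => 0) (fun _ => Set.univ)
    (fun k hk => ⟨fun T hT => (cramerOn_pos (fun n hn => three_le_of_mem_block hk hn) (mem_powerset.1 hT)).le, sum_cramerOn _⟩)
    (fun _ => ⟨le_rfl, zero_le_one⟩)
  have h0 : ∀ k, 2 ≤ k → relEntropy μ A (block k) ≤ d k := fun k hk => ((hent k hk).trans (by rw [zero_mul])).trans (hd k)
  refine ⟨Ω, mΩ, μ, hμ, A, hA, h0, h Ω μ A hA ?_⟩
  filter_upwards [eventually_ge_atTop 2] with k hk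
  exact h0 k hk

theorem one_le_of_momUp {S : Set ℕ} {q θ : ℝ} (hq : 0 ≤ q) (hG : GapLaw S) (hM : MomUp q θ S) : 1 ≤ θ := by
  classical
  by_contra h1
  rw [not_le] at h1
  have h0 := hG 0 le_rfl
  rw [neg_zero, Real.exp_zero] at h0
  set ε : ℝ := (1 - θ) / 3 with hε
  have hε0 : 0 < ε := by
    rw [hε]
    linarith
  have h2 : ∀ᶠ x : ℕ in atTop, Real.log x ≤ (1 / 4) * (x : ℝ) ^ ε := by
    have h3 := (isLittleO_log_rpow_atTop hε0).bound (show (0 : ℝ) < 1 / 4 by norm_num)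
    filter_upwards [tendsto_natCast_atTop_atTop.eventually h3] with x hx
    rw [Real.norm_eq_abs, Real.norm_eq_abs, abs_of_nonneg (Real.log_natCast_nonneg x), abs_of_nonneg (by positivity)] at hx
    exact hx
  obtain ⟨x, ⟨⟨⟨hx1, hx2⟩, hx3⟩, hx4⟩⟩ :=
    (((h0.eventually_const_lt (show (1 : ℝ) / 2 < 1 by norm_num)).and (hM ε hε0)).and h2 |>.and (eventually_ge_atTop 3)).exists
  have hx0 : (0 : ℝ) < x := by
    have : 0 < x := by omega
    exact_mod_cast this
  have hl : 0 < Real.log x := lt_trans one_pos (one_lt_log hx4)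
  have h3 : (Nt S 0 x : ℝ) ≤ Fq q S x := by
    have h4 : (Nt S 0 x : ℝ) = ∑ a ∈ (range (x + 1)).filter (fun a => a ∈ S ∧ 0 * Real.log a < gap S a), (1 : ℝ) := by
      unfold Nt
      rw [sum_const, nsmul_eq_mul, mul_one]
    rw [h4]
    unfold Fq
    refine (sum_le_sum (g := fun a => (gap S a : ℝ) ^ q) (fun a ha => ?_)).trans
      (sum_le_sum_of_subset_of_nonneg (fun a ha => ?_) (fun i _ _ => by positivity))
    · rw [mem_filter, zero_mul] at ha
      have h5 : (1 : ℝ) ≤ gap S a := by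
        have : 0 < gap S a := by exact_mod_cast ha.2.2
        exact_mod_cast this
      exact Real.one_le_rpow h5 hq
    · rw [mem_filter] at ha ⊢
      exact ⟨ha.1, ha.2.1⟩
  rw [lt_div_iff₀ hx0] at hx1
  have h4 : (Nt S 0 x : ℝ) * Real.log x ≤ (x : ℝ) ^ (θ + ε) * ((1 / 4) * (x : ℝ) ^ ε) :=
    mul_le_mul (h3.trans hx2) hx3 hl.le (by positivity)
  have h5 : (x : ℝ) ^ (θ + ε) * ((1 / 4) * (x : ℝ) ^ ε) ≤ (1 / 4) * x := by
    calc (x : ℝ) ^ (θ + ε) * ((1 / 4) * (x : ℝ) ^ ε) = (1 / 4) * (x : ℝ) ^ (θ + ε + ε) := by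
          rw [Real.rpow_add hx0 (θ + ε) ε]
          ring
      _ ≤ (1 / 4) * (x : ℝ) ^ (1 : ℝ) := by
          apply mul_le_mul_of_nonneg_left _ (by norm_num)
          apply Real.rpow_le_rpow_of_exponent_le _ (by linarith)
          have : 1 ≤ x := by omega
          exact_mod_cast this
      _ = (1 / 4) * x := by rw [Real.rpow_one]
  linarith

/-- **(4) The exact growth exponent of the moments.** -/
theorem momUp_iff (J : MJobs) {q δ θ : ℝ} (hq : 1 < q) (hδ : 0 ≤ δ) (hδ1 : δ < 1) :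
    AllLevel δ (MomUp q θ) ↔ max 1 (q * δ) ≤ θ := by
  refine ⟨fun h => ?_, all_momUp J hq hδ hδ1⟩
  have h1 : 1 ≤ θ := by
    have h0 : AllModels (fun _ => 0) GapLaw := all_gapLaw J (fun _ => le_rfl) (by simp)
    obtain ⟨Ω, mΩ, μ, hμ, A, hA, h2, h3⟩ := some_of_allModels J.si (fun _ => le_rfl) h0
    have h4 := h Ω μ A hA (fun ε hε => by
      filter_upwards [eventually_ge_atTop 2] with k hk
      exact (h2 k hk).trans (by positivity))
    obtain ⟨ω, h5, h6⟩ := (h3.and h4).exists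
    exact one_le_of_momUp (by linarith) h5 h6
  refine max_le h1 ?_
  by_contra h2
  rw [not_le] at h2
  have hδ0 : 0 < δ := by
    rcases hδ.eq_or_lt with h3 | h3
    · rw [← h3, mul_zero] at h2
      linarith
    · exact h3
  exact not_level_of_model le_rfl ((some_large J hq hδ0 hδ1).mono (fun S hS => hS θ h2)) h

/-- **Main theorem of project MG.** -/
theorem main (J : MJobs) :
    (∀ d : ℕ → ℝ, (∀ k, 0 ≤ d k) →
      (AllModels d GapLaw ↔ Summable (fun k : ℕ => d k * k / 2 ^ k)) ∧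
      ∀ q : ℝ, 1 < q → (AllModels d (Mom q) ↔ Summable (fun k : ℕ => d k * ((k : ℝ) / 2 ^ k) ^ (1 / q)))) ∧
    (∀ δ : ℝ, 0 ≤ δ → (AllLevel δ GapLaw ↔ δ < 1) ∧ ∀ q : ℝ, 1 < q → (AllLevel δ (Mom q) ↔ q * δ < 1)) ∧
    (∀ δ q θ : ℝ, 0 ≤ δ → δ < 1 → 1 < q → (AllLevel δ (MomUp q θ) ↔ max 1 (q * δ) ≤ θ)) :=
  ⟨fun _ hd => ⟨gapLaw_iff J hd, fun _ hq => mom_iff J hq hd⟩,
    fun _ hδ => ⟨gapLaw_level J hδ, fun _ hq => mom_level J hq hδ⟩,
    fun _ _ _ hδ hδ1 hq => momUp_iff J hq hδ hδ1⟩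

end Pool.Agent.Q120.MG
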