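import Pool.Agent.Q120.MGaps.Hole

/-!
# Project MG: assembly
-/

set_option autoImplicit false

namespace Pool.Agent.Q120.MG

open Finset MeasureTheory Filter Pool.Agent.Q120.ET Pool.Agent.Q120.GM Pool.Agent.Q120.GE Pool.Agent.Q120.RZ Pool.Agent.Q120.SP
  Pool.Agent.Q120.LG Pool.Agent.Q120.SI
open scoped Topology

/-- The jobs. -/
structure MJobs : Prop where
  si : SI.Jobs
  mgl : J_MGL
  mgu : J_MGU
  mgs : J_MGS
  mgc : J_MGC
  mgb : J_MGB
  mgd : J_MGD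

/-- The moment is at most `x ^ (θ + o(1))`. -/
def MomUp (q θ : ℝ) (S : Set ℕ) : Prop := ∀ ε : ℝ, 0 < ε → ∀ᶠ x : ℕ in atTop, Fq q S x ≤ (x : ℝ) ^ (θ + ε)

/-- Change of measure and the Borel-Cantelli lemma. -/
theorem bc_ent (J : SI.Jobs) {Ω : Type} [MeasurableSpace Ω] {μ : Measure Ω} [IsProbabilityMeasure μ] {A : Ω → Set ℕ}
    (hA : IsRandomSet A) (F : ℕ → Finset ℕ → Prop) (u D : ℕ → ℝ) (hu : ∀ᶠ k in atTop, 0 < u k)
    (hD : ∀ᶠ k : ℕ in atTop, relEntropy μ A (block k) ≤ D k)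
    (hm : ∀ᶠ k : ℕ in atTop, ∀ (Ω : Type) [MeasurableSpace Ω] (μ : Measure Ω) [IsProbabilityMeasure μ] (A : Ω → Set ℕ),
      IsModel μ pc A → μ.real {ω | F k (tr A (block k) ω)} ≤ Real.exp (-(2 * u k)))
    (hs : Summable (fun k => (D k + Real.exp (-u k)) / u k)) : ∀ᵐ ω ∂μ, ∀ᶠ k : ℕ in atTop, ¬ F k (tr A (block k) ω) := by
  classical
  refine bc (μ := μ) (B := fun k => {ω | F k (tr A (block k) ω)}) hs ?_
  filter_upwards [hu, hD, hm, eventually_ge_atTop 2] with k h1 h2 h3 h4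
  refine (J.entb k h4 (F k) (u k) h1 (fun Ω' _ μ' _ A' hA' => h3 Ω' μ' A' hA') Ω μ A hA).trans ?_
  exact div_le_div_of_nonneg_right (by linarith) h1.le

theorem tr_eq_rb {Ω : Type} [MeasurableSpace Ω] (A : Ω → Set ℕ) (ω : Ω) (k : ℕ) : tr A (block k) ω = rb (A ω) k := by
  classical
  ext n
  rw [mem_tr, rb, mem_filter]

theorem cn2_anti {t t' : ℝ} (h : t ≤ t') (k v : ℕ) (T : Finset ℕ) : cn2 t' k v T ≤ cn2 t k v T := by
  classical
  unfold cn2
  refine card_le_card (fun a ha => ?_)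
  rw [mem_filter] at ha ⊢
  refine ⟨ha.1, ha.2.1, fun n hn h1 => ha.2.2 n hn ⟨h1.1, h1.2.trans ?_⟩⟩
  have h2 : 0 ≤ Real.log a := Real.log_natCast_nonneg a
  have := mul_le_mul_of_nonneg_right h h2
  linarith

/-- The statement for one `t`. -/
def St (t : ℝ) (S : Set ℕ) : Prop := ∀ ε : ℝ, 0 < ε → ∀ᶠ k : ℕ in atTop, ∀ v ∈ block k,
    |(cn2 t k v (rb S k) : ℝ) - Real.exp (-t) * ((v : ℝ) - 2 ^ k) / (k * Real.log 2)| < ε * 2 ^ k / k

theorem st_all {S : Set ℕ} (h : ∀ t : ℚ, 0 ≤ (t : ℝ) → St t S) (t : ℝ) (ht : 0 ≤ t) : St t S := by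
  intro ε hε
  have hl2 : (1 : ℝ) / 2 ≤ Real.log 2 := by
    have := Real.log_two_gt_d9
    linarith
  -- rational bounds
  obtain ⟨t2, h1, h2⟩ : ∃ t2 : ℚ, t ≤ (t2 : ℝ) ∧ (t2 : ℝ) < t + ε / 4 := by
    obtain ⟨r, h1, h2⟩ := exists_rat_btwn (show t < t + ε / 4 by linarith)
    exact ⟨r, h1.le, h2⟩
  obtain ⟨t1, h3, h4, h5⟩ : ∃ t1 : ℚ, (t1 : ℝ) ≤ t ∧ t - ε / 4 < (t1 : ℝ) ∧ 0 ≤ (t1 : ℝ) := by
    rcases ht.eq_or_lt with h0 | h0
    · refine ⟨0, ?_, ?_, ?_⟩
      · push_cast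
        exact h0.le
      · push_cast
        linarith
      · push_cast
        exact le_rfl
    · obtain ⟨r, h1, h2⟩ := exists_rat_btwn (show max 0 (t - ε / 4) < t from max_lt h0 (by linarith))
      exact ⟨r, h2.le, (le_max_right _ _).trans_lt h1, (le_max_left _ _).trans h1.le⟩
  have h6 : Real.exp (-(t1 : ℝ)) ≤ Real.exp (-t) + ε / 4 := by
    have h7 : Real.exp (-(t1 : ℝ)) - Real.exp (-t) ≤ ε / 4 := by
      have h8 : Real.exp (-(t1 : ℝ)) ≤ 1 := by
        rw [Real.exp_le_one_iff]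
        linarith
      have h9 : 1 - (t - t1) ≤ Real.exp (-(t - t1)) := by
        have := Real.add_one_le_exp (-(t - (t1 : ℝ)))
        linarith
      have h10 : Real.exp (-t) = Real.exp (-(t1 : ℝ)) * Real.exp (-(t - t1)) := by
        rw [← Real.exp_add]
        congr 1
        ring
      have h11 : Real.exp (-(t1 : ℝ)) * (1 - (t - t1)) ≤ Real.exp (-t) := by
        rw [h10]
        exact mul_le_mul_of_nonneg_left h9 (Real.exp_pos _).le
      have h12 : Real.exp (-(t1 : ℝ)) * (t - t1) ≤ 1 * (t - t1) := mul_le_mul_of_nonneg_right h8 (by linarith)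
      nlinarith
    linarith
  have h7 : Real.exp (-t) - ε / 4 ≤ Real.exp (-(t2 : ℝ)) := by
    have h8 : Real.exp (-t) ≤ 1 := by
      rw [Real.exp_le_one_iff]
      linarith
    have h9 : 1 - (t2 - t) ≤ Real.exp (-(t2 - t)) := by
      have := Real.add_one_le_exp (-((t2 : ℝ) - t))
      linarith
    have h10 : Real.exp (-(t2 : ℝ)) = Real.exp (-t) * Real.exp (-(t2 - t)) := by
      rw [← Real.exp_add]
      congr 1
      ring
    have h11 : Real.exp (-t) * (1 - (t2 - t)) ≤ Real.exp (-(t2 : ℝ)) := by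
      rw [h10]
      exact mul_le_mul_of_nonneg_left h9 (Real.exp_pos _).le
    have h12 : Real.exp (-t) * (t2 - t) ≤ 1 * (t2 - t) := mul_le_mul_of_nonneg_right h8 (by linarith)
    nlinarith
  filter_upwards [h t1 h5 (ε / 4) (by positivity), h t2 (ht.trans h1) (ε / 4) (by positivity), eventually_ge_atTop 1] with k hk1 hk2 hk0 v hv
  have hk : (0 : ℝ) < k := by
    have : 0 < k := hk0
    exact_mod_cast this
  have hv1 : 0 ≤ (v : ℝ) - 2 ^ k ∧ (v : ℝ) - 2 ^ k ≤ 2 ^ k := by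
    rw [block, mem_Ico] at hv
    have h8 : (2 : ℝ) ^ k ≤ v := by exact_mod_cast hv.1
    have h9 : (v : ℝ) ≤ 2 ^ (k + 1) := by exact_mod_cast hv.2.le
    rw [pow_succ] at h9
    constructor <;> linarith
  have hY0 : 0 ≤ ((v : ℝ) - 2 ^ k) / (k * Real.log 2) := div_nonneg hv1.1 (by positivity)
  have hY1 : ((v : ℝ) - 2 ^ k) / (k * Real.log 2) ≤ 2 * (2 ^ k / k) := by
    rw [div_le_iff₀ (by positivity)]
    have h8 : 2 * (2 ^ k / (k : ℝ)) * (k * Real.log 2) = 2 * 2 ^ k * Real.log 2 := by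
      field_simp
    rw [h8]
    have h9 : (2 : ℝ) ^ k ≤ 2 * 2 ^ k * Real.log 2 := by
      have : (0 : ℝ) < 2 ^ k := by positivity
      nlinarith
    linarith [hv1.2]
  have h8 := hk1 v hv
  have h9 := hk2 v hv
  have h10 : (cn2 t k v (rb S k) : ℝ) ≤ cn2 (t1 : ℝ) k v (rb S k) := by exact_mod_cast cn2_anti h3 k v _
  have h11 : (cn2 (t2 : ℝ) k v (rb S k) : ℝ) ≤ cn2 t k v (rb S k) := by exact_mod_cast cn2_anti h1 k v _
  rw [abs_lt] at h8 h9 ⊢
  rw [mul_div_assoc] at h8 h9 ⊢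
  rw [mul_div_assoc] at h8 h9 ⊢
  have hZ : 0 < 2 ^ k / (k : ℝ) := by positivity
  have h12 := mul_le_mul_of_nonneg_right h6 hY0
  have h13 := mul_le_mul_of_nonneg_right h7 hY0
  constructor
  · nlinarith
  · nlinarith

theorem small_ratio {c : ℝ} (hc : 0 < c) {D : ℕ → ℝ} (hD : ∀ k, 0 ≤ D k) {Z : ℕ → ℝ} (hZ : ∀ᶠ k in atTop, 0 < Z k)
    (h1 : Summable (fun k => D k / Z k)) (h2 : Summable (fun k => 1 / Z k)) :
    Summable (fun k => (D k + Real.exp (-(c * Z k))) / (c * Z k)) := by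
  refine Summable.of_norm_bounded_eventually_nat ((h1.add h2).mul_left (1 / c)) ?_
  filter_upwards [hZ] with k hk
  have h3 := hD k
  have h4 : Real.exp (-(c * Z k)) ≤ 1 := by
    rw [Real.exp_le_one_iff]
    have := mul_pos hc hk
    linarith
  rw [Real.norm_eq_abs, abs_of_nonneg (by positivity), ← add_div, div_mul_div_comm, one_mul]
  exact div_le_div_of_nonneg_right (by linarith) (by positivity)

/-- **(1), first half.** -/
theorem all_gapLaw (J : MJobs) {d : ℕ → ℝ} (hd : ∀ k, 0 ≤ d k) (hs : Summable (fun k : ℕ => d k * k / 2 ^ k)) :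
    AllModels d GapLaw := by
  classical
  intro Ω _ μ _ A hA hD
  have h1 : ∀ (t : ℚ) (n : ℕ), 0 ≤ (t : ℝ) → ∀ᵐ ω ∂μ, ∀ᶠ k : ℕ in atTop,
      ¬ ∃ v ∈ block k, (1 / ((n : ℝ) + 1)) * 2 ^ k / k ≤
        |(cn2 t k v (tr A (block k) ω) : ℝ) - Real.exp (-t) * ((v : ℝ) - 2 ^ k) / (k * Real.log 2)| := by
    intro t n ht
    obtain ⟨c, hc, h2⟩ := J.mgs t (1 / ((n : ℝ) + 1)) ht (by positivity)
    refine bc_ent J.si hA (fun k T => ∃ v ∈ block k, (1 / ((n : ℝ) + 1)) * 2 ^ k / k ≤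
        |(cn2 t k v T : ℝ) - Real.exp (-t) * ((v : ℝ) - 2 ^ k) / (k * Real.log 2)|) (fun k => c / 2 * (2 ^ k / k)) d ?_ hD ?_ ?_
    · filter_upwards [eventually_ge_atTop 1] with k hk
      have : (0 : ℝ) < k := by exact_mod_cast hk
      positivity
    · filter_upwards [h2] with k hk Ω' _ μ' _ A' hA'
      refine (hk Ω' μ' A' hA').trans (le_of_eq ?_)
      congr 1
      ring
    · refine small_ratio (by positivity) hd ?_ ?_ ?_
      · filter_upwards [eventually_ge_atTop 1] with k hk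
        have : (0 : ℝ) < k := by exact_mod_cast hk
        positivity
      · refine hs.congr (fun k => ?_)
        rw [div_div_eq_mul_div]
      · have h3 := SI.summable_pow_div (one_pos) 1
        refine h3.congr (fun k => ?_)
        rw [one_div_div, pow_one, one_mul, Real.rpow_natCast]
  have h2 : ∀ᵐ ω ∂μ, ∀ (t : ℚ) (n : ℕ), 0 ≤ (t : ℝ) → ∀ᶠ k : ℕ in atTop,
      ¬ ∃ v ∈ block k, (1 / ((n : ℝ) + 1)) * 2 ^ k / k ≤
        |(cn2 t k v (tr A (block k) ω) : ℝ) - Real.exp (-t) * ((v : ℝ) - 2 ^ k) / (k * Real.log 2)| := by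
    rw [ae_all_iff]
    intro t
    rw [ae_all_iff]
    intro n
    by_cases ht : 0 ≤ (t : ℝ)
    · filter_upwards [h1 t n ht] with ω hω _
      exact hω
    · exact Filter.Eventually.of_forall (fun ω h3 => absurd h3 ht)
  filter_upwards [h2] with ω hω
  refine J.mgc (A ω) (fun t ε ht hε => st_all (fun t ht ε hε => ?_) t ht ε hε)
  obtain ⟨n, hn⟩ := exists_nat_one_div_lt hε
  filter_upwards [hω t n ht, eventually_ge_atTop 1] with k hk hk1 v hv
  have hk0 : (0 : ℝ) < k := by exact_mod_cast hk1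
  have h3 : ¬ (1 / ((n : ℝ) + 1)) * 2 ^ k / k ≤
        |(cn2 t k v (tr A (block k) ω) : ℝ) - Real.exp (-t) * ((v : ℝ) - 2 ^ k) / (k * Real.log 2)| :=
    fun h => hk ⟨v, hv, h⟩
  rw [tr_eq_rb, not_le] at h3
  refine h3.trans ?_
  apply div_lt_div_of_pos_right _ hk0
  exact mul_lt_mul_of_pos_right hn (by positivity)

theorem ratio_le {q : ℝ} (hq : 1 ≤ q) (k : ℕ) : (k : ℝ) / 2 ^ k ≤ ((k : ℝ) / 2 ^ k) ^ (1 / q) := by
  have h1 : (k : ℝ) / 2 ^ k ≤ 1 := by
    rw [div_le_one (by positivity)]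
    exact_mod_cast (Nat.lt_two_pow_self (n := k)).le
  have h2 : (0 : ℝ) ≤ (k : ℝ) / 2 ^ k := by positivity
  rcases h2.eq_or_lt with h3 | h3
  · rw [← h3]
    exact Real.rpow_nonneg le_rfl _
  · calc (k : ℝ) / 2 ^ k = ((k : ℝ) / 2 ^ k) ^ (1 : ℝ) := (Real.rpow_one _).symm
      _ ≤ _ := by
        apply Real.rpow_le_rpow_of_exponent_ge h3 h1
        rw [div_le_one (by linarith)]
        exact hq

theorem gap_summable {d : ℕ → ℝ} (hd : ∀ k, 0 ≤ d k) {q : ℝ} (hq : 1 ≤ q)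
    (hs : Summable (fun k : ℕ => d k * ((k : ℝ) / 2 ^ k) ^ (1 / q))) : Summable (fun k : ℕ => d k * k / 2 ^ k) := by
  refine Summable.of_nonneg_of_le (fun k => ?_) (fun k => ?_) hs
  · have := hd k
    positivity
  · rw [mul_div_assoc]
    exact mul_le_mul_of_nonneg_left (ratio_le hq k) (hd k)

theorem inv_rpow_div (q : ℝ) (k : ℕ) : 1 / ((2 : ℝ) ^ k / k) ^ (1 / q) = ((k : ℝ) / 2 ^ k) ^ (1 / q) := by
  rw [one_div, ← Real.inv_rpow (by positivity), inv_div]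

theorem summable_rpow_ratio {q : ℝ} (hq : 0 < q) : Summable (fun k : ℕ => ((k : ℝ) / 2 ^ k) ^ (1 / q)) := by
  -- eventually `k ≤ 2 ^ (k / 2)`
  have h1 : ∀ᶠ k : ℕ in atTop, (1 : ℝ) * (k : ℝ) ^ 1 ≤ (2 : ℝ) ^ ((1 / 2 : ℝ) * k) := SI.ev_pow_le (by norm_num) 1 1
  have h2 := SI.summable_pow_div (show (0 : ℝ) < 1 / 2 * (1 / q) by positivity) 0
  refine Summable.of_norm_bounded_eventually_nat h2 ?_
  filter_upwards [h1] with k hk
  rw [Real.norm_eq_abs, abs_of_nonneg (by positivity), pow_zero]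
  rw [one_mul, pow_one] at hk
  have h3 : (k : ℝ) / 2 ^ k ≤ (2 : ℝ) ^ (-((1 / 2 : ℝ) * k)) := by
    rw [div_le_iff₀ (by positivity), ← Real.rpow_natCast 2 k, ← Real.rpow_add (by norm_num)]
    refine hk.trans (le_of_eq ?_)
    congr 1
    ring
  calc ((k : ℝ) / 2 ^ k) ^ (1 / q) ≤ ((2 : ℝ) ^ (-((1 / 2 : ℝ) * k))) ^ (1 / q) :=
        Real.rpow_le_rpow (by positivity) h3 (by positivity)
    _ = 1 / (2 : ℝ) ^ (1 / 2 * (1 / q) * k) := by
        rw [← Real.rpow_mul (by norm_num), one_div ((2 : ℝ) ^ (1 / 2 * (1 / q) * (k : ℝ))), ← Real.rpow_neg (by norm_num)]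
        congr 1
        ring

/-- **(2), first half.** -/
theorem all_mom (J : MJobs) {q : ℝ} (hq : 1 < q) {d : ℕ → ℝ} (hd : ∀ k, 0 ≤ d k)
    (hs : Summable (fun k : ℕ => d k * ((k : ℝ) / 2 ^ k) ^ (1 / q))) : AllModels d (Mom q) := by
  classical
  intro Ω _ μ _ A hA hD
  have h1 : ∀ n : ℕ, ∃ θ : ℝ, 0 < θ ∧ ∀ᵐ ω ∂μ, ∀ᶠ k : ℕ in atTop,
      ¬ (1 / ((n : ℝ) + 1)) * 2 ^ k * (k : ℝ) ^ (q - 1) ≤ big q θ k (tr A (block k) ω) := by
    intro n
    obtain ⟨θ, c, hθ, hc, h2⟩ := J.mgl q (1 / ((n : ℝ) + 1)) hq (by positivity)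
    refine ⟨θ, hθ, bc_ent J.si hA (fun k T => (1 / ((n : ℝ) + 1)) * 2 ^ k * (k : ℝ) ^ (q - 1) ≤ big q θ k T)
      (fun k => c / 2 * ((2 : ℝ) ^ k / k) ^ (1 / q)) d ?_ hD ?_ ?_⟩
    · filter_upwards [eventually_ge_atTop 1] with k hk
      have : (0 : ℝ) < k := by exact_mod_cast hk
      positivity
    · filter_upwards [h2] with k hk Ω' _ μ' _ A' hA'
      refine (hk Ω' μ' A' hA').trans (le_of_eq ?_)
      congr 1
      ring
    · refine small_ratio (by positivity) hd ?_ ?_ ?_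
      · filter_upwards [eventually_ge_atTop 1] with k hk
        have : (0 : ℝ) < k := by exact_mod_cast hk
        positivity
      · refine hs.congr (fun k => ?_)
        rw [← inv_rpow_div, mul_one_div]
      · refine (summable_rpow_ratio (show 0 < q by linarith)).congr (fun k => ?_)
        rw [inv_rpow_div]
  choose θ hθ h2 using h1
  filter_upwards [ae_all_iff.2 h2, all_gapLaw J hd (gap_summable hd hq.le hs) Ω μ A hA hD] with ω hω hG
  refine J.mgd J.mgb (A ω) q hq hG (fun ε hε => ?_)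
  obtain ⟨n, hn⟩ := exists_nat_one_div_lt hε
  refine ⟨θ n, hθ n, ?_⟩
  filter_upwards [hω n] with k hk
  rw [tr_eq_rb, not_le] at hk
  refine hk.le.trans ?_
  exact mul_le_mul_of_nonneg_right (mul_le_mul_of_nonneg_right hn.le (by positivity)) (by positivity)

/-! ## The converse statements -/

theorem not_gapLaw_of_holes {S : Set ℕ} (h : ∃ᶠ k : ℕ in atTop, ∀ n ∈ S, ¬ (2 ^ k < n ∧ n ≤ 2 ^ k + 2 ^ (k - 1))) : ¬ GapLaw S := by
  classical
  intro hG
  have h0 := hG 0 le_rfl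
  rw [neg_zero, Real.exp_zero] at h0
  have hx1 : Tendsto (fun k : ℕ => 2 ^ k) atTop (atTop : Filter ℕ) := tendsto_pow_atTop_atTop_of_one_lt (by norm_num)
  have hx2 : Tendsto (fun k : ℕ => 2 ^ k + 2 ^ (k - 1)) atTop (atTop : Filter ℕ) :=
    tendsto_atTop_mono (fun k => Nat.le_add_right _ _) hx1
  have h1 := h0.comp hx1
  have h2 := h0.comp hx2
  have h3 := h1.eventually_lt_const (show (1 : ℝ) < 21 / 20 by norm_num)
  have h4 := h2.eventually_const_lt (show (9 : ℝ) / 10 < 1 by norm_num)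
  obtain ⟨k, ⟨⟨hk1, hk2⟩, hk3⟩, hk4⟩ := (((h.and_eventually h3).and_eventually h4).and_eventually (eventually_ge_atTop 40)).exists
  simp only [Function.comp] at hk2 hk3
  have h5 : Nt S 0 (2 ^ k + 2 ^ (k - 1)) ≤ Nt S 0 (2 ^ k) := by
    unfold Nt
    refine card_le_card (fun a ha => ?_)
    rw [mem_filter, mem_range] at ha ⊢
    refine ⟨?_, ha.2⟩
    by_contra h6
    exact hk1 a ha.2.1 ⟨by omega, by omega⟩
  have h6 : (Nt S 0 (2 ^ k + 2 ^ (k - 1)) : ℝ) ≤ Nt S 0 (2 ^ k) := by exact_mod_cast h5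
  obtain ⟨j, rfl⟩ : ∃ j, k = j + 1 := ⟨k - 1, by omega⟩
  push_cast at hk2 hk3
  rw [Nat.add_sub_cancel] at h6
  set N1 : ℝ := (Nt S 0 (2 ^ (j + 1)) : ℝ) with hN1
  set N2 : ℝ := (Nt S 0 (2 ^ (j + 1) + 2 ^ j) : ℝ) with hN2
  have hX : (0 : ℝ) < 2 ^ j := by positivity
  have hj : (39 : ℝ) ≤ j := by
    have : 39 ≤ j := by omega
    exact_mod_cast this
  have hlog1 : Real.log ((2 : ℝ) ^ (j + 1)) = (j + 1) * Real.log 2 := by
    rw [Real.log_pow]
    push_cast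
    ring
  have hlog2 : Real.log ((2 : ℝ) ^ (j + 1) + 2 ^ j) ≤ (j + 2) * Real.log 2 := by
    have h7 : (2 : ℝ) ^ (j + 1) + 2 ^ j ≤ 2 ^ (j + 2) := by
      rw [pow_succ, pow_succ, pow_succ]
      linarith
    have h8 := Real.log_le_log (by positivity) h7
    rw [Real.log_pow] at h8
    push_cast at h8
    exact h8
  have hl : 0 < Real.log 2 := Real.log_pos (by norm_num)
  rw [hlog1, div_lt_iff₀ (by positivity)] at hk2
  rw [lt_div_iff₀ (by positivity)] at hk3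
  have hN10 : 0 ≤ N1 := Nat.cast_nonneg _
  have hN20 : 0 ≤ N2 := Nat.cast_nonneg _
  have h7 : N2 * Real.log ((2 : ℝ) ^ (j + 1) + 2 ^ j) ≤ N1 * ((j + 2) * Real.log 2) := by
    calc N2 * Real.log ((2 : ℝ) ^ (j + 1) + 2 ^ j) ≤ N2 * ((j + 2) * Real.log 2) := mul_le_mul_of_nonneg_left hlog2 hN20
      _ ≤ _ := mul_le_mul_of_nonneg_right h6 (by positivity)
  have h8 : N1 * ((j + 2) * Real.log 2) ≤ (41 / 40) * (N1 * ((j + 1) * Real.log 2)) := by
    have h9 : ((j : ℝ) + 2) ≤ 41 / 40 * (j + 1) := by linarith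
    have h10 := mul_le_mul_of_nonneg_left (mul_le_mul_of_nonneg_right h9 hl.le) hN10
    linarith
  have hp : (2 : ℝ) ^ (j + 1) = 2 * 2 ^ j := by
    rw [pow_succ]
    ring
  linarith

theorem sum_half {d : ℕ → ℝ} (hns : ¬ Summable (fun k : ℕ => d k * k / 2 ^ k)) :
    ¬ Summable (fun k : ℕ => d k * k / ((2 ^ (k - 1) : ℕ) : ℝ)) := by
  intro hs
  apply hns
  have h1 : Summable (fun k : ℕ => (1 / 2 : ℝ) * (d k * k / ((2 ^ (k - 1) : ℕ) : ℝ))) := hs.mul_left _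
  refine (summable_nat_add_iff 1).1 (((summable_nat_add_iff 1).2 h1).congr (fun k => ?_))
  rw [Nat.add_sub_cancel]
  push_cast
  rw [pow_succ]
  field_simp

/-- **(1) The exact threshold for the law of the gaps.** -/
theorem gapLaw_iff (J : MJobs) {d : ℕ → ℝ} (hd : ∀ k, 0 ≤ d k) : AllModels d GapLaw ↔ Summable (fun k : ℕ => d k * k / 2 ^ k) := by
  refine ⟨fun h => ?_, all_gapLaw J hd⟩
  by_contra hns
  refine not_allModels_of (some_hole J.si (L := fun k => 2 ^ (k - 1)) (fun k hk => by positivity) (fun k hk => ?_) hd (sum_half hns))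
    (fun S hS hG => not_gapLaw_of_holes hS hG) h
  exact Nat.pow_lt_pow_right (by norm_num) (by omega)

/-- A hole makes the moment large. -/
theorem Fq_ge_of_hole {S : Set ℕ} {q : ℝ} (hq : 0 ≤ q) {k L : ℕ} (hhole : ∀ n ∈ S, ¬ (2 ^ k < n ∧ n ≤ 2 ^ k + L))
    (h1 : ∃ a ∈ S, a ≤ 2 ^ k) (h2 : ∃ n ∈ S, 2 ^ k < n) : (L : ℝ) ^ q ≤ Fq q S (2 ^ k) := by
  classical
  -- the last element before the hole
  have hne : ((range (2 ^ k + 1)).filter (fun a => a ∈ S)).Nonempty := by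
    obtain ⟨a, ha, ha2⟩ := h1
    exact ⟨a, mem_filter.2 ⟨mem_range.2 (by omega), ha⟩⟩
  set a := ((range (2 ^ k + 1)).filter (fun a => a ∈ S)).max' hne with ha
  have haM := max'_mem _ hne
  rw [← ha, mem_filter, mem_range] at haM
  have hmax : ∀ b ∈ S, b ≤ 2 ^ k → b ≤ a := by
    intro b hb hb2
    exact le_max' _ _ (mem_filter.2 ⟨mem_range.2 (by omega), hb⟩)
  have hset : {n | n ∈ S ∧ a < n}.Nonempty := by
    obtain ⟨n, hn, hn2⟩ := h2
    exact ⟨n, hn, by omega⟩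
  have hmem := Nat.sInf_mem hset
  have h3 : 2 ^ k < sInf {n | n ∈ S ∧ a < n} := by
    by_contra h4
    rw [not_lt] at h4
    have h5 := hmax _ hmem.1 h4
    have h6 := hmem.2
    omega
  have h4 : 2 ^ k + L < sInf {n | n ∈ S ∧ a < n} := by
    by_contra h5
    rw [not_lt] at h5
    exact hhole _ hmem.1 ⟨h3, h5⟩
  have h5 : L ≤ gap S a := by
    unfold gap
    omega
  have h6 : (L : ℝ) ^ q ≤ (gap S a : ℝ) ^ q := Real.rpow_le_rpow (Nat.cast_nonneg _) (by exact_mod_cast h5) hq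
  refine h6.trans ?_
  unfold Fq
  exact single_le_sum (f := fun a => (gap S a : ℝ) ^ q) (fun i _ => by positivity) (mem_filter.2 ⟨mem_range.2 haM.1, haM.2⟩)

/-- The moments of a finite set are bounded. -/
theorem infinite_of_mom {S : Set ℕ} {q : ℝ} (hq : 1 < q) (h : Mom q S) : ∀ N : ℕ, ∃ n ∈ S, N < n := by
  classical
  intro N
  by_contra hN
  push Not at hN
  have hG : 0 < Real.Gamma (q + 1) := Real.Gamma_pos_of_pos (by linarith)
  have h1 : Tendsto (fun x : ℕ => Fq q S x / (x * Real.log x ^ (q - 1))) atTop (𝓝 0) := by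
    have h2 : Tendsto (fun x : ℕ => Fq q S N * (1 / (x : ℝ))) atTop (𝓝 0) := by
      have := (tendsto_one_div_atTop_nhds_zero_nat (𝕜 := ℝ)).const_mul (Fq q S N)
      rwa [mul_zero] at this
    have hF0 : ∀ x, 0 ≤ Fq q S x := fun x => sum_nonneg (fun i _ => by positivity)
    refine tendsto_of_tendsto_of_tendsto_of_le_of_le' tendsto_const_nhds h2 ?_ ?_
    · filter_upwards [eventually_ge_atTop 3] with x hx
      have hl : 0 ≤ Real.log x := Real.log_natCast_nonneg x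
      have := hF0 x
      positivity
    · filter_upwards [eventually_ge_atTop (max N 3)] with x hx
      have hx3 : 3 ≤ x := (le_max_right _ _).trans hx
      have hxN : N ≤ x := (le_max_left _ _).trans hx
      have hl : 1 ≤ Real.log x := (one_lt_log hx3).le
      have hx0 : (0 : ℝ) < x := by
        have : 0 < x := by omega
        exact_mod_cast this
      have h3 : Fq q S x = Fq q S N := by
        unfold Fq
        congr 1
        ext a
        rw [mem_filter, mem_filter, mem_range, mem_range]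
        constructor
        · rintro ⟨h4, h5⟩
          have := hN a h5
          exact ⟨by omega, h5⟩
        · rintro ⟨h4, h5⟩
          exact ⟨by omega, h5⟩
      rw [h3, mul_one_div]
      apply div_le_div_of_nonneg_left (hF0 N) hx0
      have h4 : 1 ≤ Real.log x ^ (q - 1) := Real.one_le_rpow hl (by linarith)
      nlinarith
  have h2 := tendsto_nhds_unique h h1
  linarith

/-- The length of the holes. -/
noncomputable def Lq (q C : ℝ) (k : ℕ) : ℕ := max 1 (min (2 ^ k - 1) ⌊(C * 2 ^ k * (k : ℝ) ^ (q - 1)) ^ (1 / q)⌋₊)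

theorem Lq_ev {q C : ℝ} (hq : 1 < q) (hC : 1 ≤ C) : ∀ᶠ k : ℕ in atTop,
    (Lq q C k : ℝ) ≤ (C * 2 ^ k * (k : ℝ) ^ (q - 1)) ^ (1 / q) ∧ (C * 2 ^ k * (k : ℝ) ^ (q - 1)) ^ (1 / q) ≤ 2 * Lq q C k := by
  -- `(C 2^k k^(q-1))^(1/q) ≤ 2^k - 1`
  have hq0 : 0 < q := by linarith
  obtain ⟨m, hm⟩ : ∃ m : ℕ, q - 1 ≤ m := exists_nat_ge _
  have h1 := SI.ev_pow_le (show (0 : ℝ) < (q - 1) / 2 by linarith) m C
  have h2 : ∀ᶠ k : ℕ in atTop, (2 : ℝ) * (k : ℝ) ^ 0 ≤ (2 : ℝ) ^ ((q - 1) / (2 * q) * k) := by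
    refine SI.ev_pow_le ?_ 0 2
    have : 0 < q - 1 := by linarith
    positivity
  filter_upwards [h1, h2, eventually_ge_atTop 1] with k hk1 hk2 hk3
  have hk0 : (1 : ℝ) ≤ k := by exact_mod_cast hk3
  set X : ℝ := (C * 2 ^ k * (k : ℝ) ^ (q - 1)) ^ (1 / q) with hX
  have hk4 : (1 : ℝ) ≤ (k : ℝ) ^ (q - 1) := Real.one_le_rpow hk0 (by linarith)
  have h2k : (1 : ℝ) ≤ 2 ^ k := one_le_pow₀ (by norm_num)
  have hX1 : 1 ≤ X := by
    rw [hX]
    apply Real.one_le_rpow _ (by positivity)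
    calc (1 : ℝ) = 1 * 1 * 1 := by norm_num
      _ ≤ C * 2 ^ k * (k : ℝ) ^ (q - 1) := by gcongr
  have hXle : X ≤ (2 : ℝ) ^ k - 1 := by
    have h3 : (k : ℝ) ^ (q - 1) ≤ (k : ℝ) ^ m := by
      rw [← Real.rpow_natCast]
      exact Real.rpow_le_rpow_of_exponent_le hk0 hm
    have h4 : C * 2 ^ k * (k : ℝ) ^ (q - 1) ≤ (2 : ℝ) ^ ((1 + (q - 1) / 2) * k) := by
      calc C * 2 ^ k * (k : ℝ) ^ (q - 1) ≤ C * 2 ^ k * (k : ℝ) ^ m := mul_le_mul_of_nonneg_left h3 (by positivity)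
        _ = 2 ^ k * (C * (k : ℝ) ^ m) := by ring
        _ ≤ 2 ^ k * (2 : ℝ) ^ ((q - 1) / 2 * k) := mul_le_mul_of_nonneg_left hk1 (by positivity)
        _ = (2 : ℝ) ^ ((1 + (q - 1) / 2) * k) := by
          rw [← Real.rpow_natCast 2 k, ← Real.rpow_add (by norm_num)]
          congr 1
          ring
    have h5 : X ≤ (2 : ℝ) ^ ((1 + (q - 1) / 2) / q * k) := by
      rw [hX]
      refine (Real.rpow_le_rpow (by positivity) h4 (by positivity)).trans (le_of_eq ?_)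
      rw [← Real.rpow_mul (by norm_num)]
      congr 1
      ring
    have h6 : X * 2 ≤ (2 : ℝ) ^ k := by
      rw [pow_zero, mul_one] at hk2
      calc X * 2 ≤ (2 : ℝ) ^ ((1 + (q - 1) / 2) / q * k) * (2 : ℝ) ^ ((q - 1) / (2 * q) * k) :=
            mul_le_mul h5 hk2 (by norm_num) (by positivity)
        _ = (2 : ℝ) ^ k := by
          rw [← Real.rpow_add (by norm_num), ← Real.rpow_natCast 2 k]
          congr 1
          field_simp
          ring
    linarith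
  have h7 : ⌊X⌋₊ ≤ 2 ^ k - 1 := by
    have h8 : (⌊X⌋₊ : ℝ) ≤ 2 ^ k - 1 := (Nat.floor_le (by linarith)).trans hXle
    have h9 : ⌊X⌋₊ + 1 ≤ 2 ^ k := by
      have : ((⌊X⌋₊ + 1 : ℕ) : ℝ) ≤ ((2 ^ k : ℕ) : ℝ) := by
        push_cast
        linarith
      exact_mod_cast this
    omega
  have h8 : 1 ≤ ⌊X⌋₊ := by
    rw [Nat.one_le_floor_iff]
    exact hX1
  have h9 : Lq q C k = ⌊X⌋₊ := by
    unfold Lq
    rw [← hX, min_eq_right h7, max_eq_right h8]
  rw [h9]
  refine ⟨Nat.floor_le (by linarith), ?_⟩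
  have h10 := (Nat.lt_floor_add_one X).le
  have h11 : (1 : ℝ) ≤ ⌊X⌋₊ := by exact_mod_cast h8
  linarith

/-- **(2), second half.** -/
theorem some_notMom (J : MJobs) {q : ℝ} (hq : 1 < q) {d : ℕ → ℝ} (hd : ∀ k, 0 ≤ d k)
    (hns : ¬ Summable (fun k : ℕ => d k * ((k : ℝ) / 2 ^ k) ^ (1 / q))) : SomeModel d (fun S => ¬ Mom q S) := by
  have hq0 : 0 < q := by linarith
  have hΓ : 0 < Real.Gamma (q + 1) := Real.Gamma_pos_of_pos (by linarith)
  set C : ℝ := (2 : ℝ) ^ q * (Real.Gamma (q + 1) + 1) with hC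
  have hC1 : 1 ≤ C := by
    have h1 : (1 : ℝ) ≤ (2 : ℝ) ^ q := Real.one_le_rpow (by norm_num) hq0.le
    rw [hC]
    nlinarith
  have hL := Lq_ev hq hC1
  refine (some_hole J.si (L := Lq q C) (fun k _ => by unfold Lq; omega) (fun k hk => ?_) hd (fun hs => hns ?_)).mono
    (fun S hS hM => ?_)
  · unfold Lq
    have : 2 ^ 2 ≤ 2 ^ k := Nat.pow_le_pow_right (by norm_num) hk
    omega
  · -- comparison of the series
    refine Summable.of_norm_bounded_eventually_nat (hs.mul_left (C ^ (1 / q))) ?_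
    filter_upwards [hL, eventually_ge_atTop 1] with k hk1 hk2
    have hk0 : (0 : ℝ) < k := by exact_mod_cast hk2
    have hdk := hd k
    rw [Real.norm_eq_abs, abs_of_nonneg (by positivity)]
    have hLpos : (0 : ℝ) < Lq q C k := by
      have : 0 < Lq q C k := by unfold Lq; omega
      exact_mod_cast this
    -- `(k/2^k)^(1/q) * L ≤ C^(1/q) * k`
    have h1 : ((k : ℝ) / 2 ^ k) ^ (1 / q) * Lq q C k ≤ C ^ (1 / q) * k := by
      calc ((k : ℝ) / 2 ^ k) ^ (1 / q) * Lq q C k ≤ ((k : ℝ) / 2 ^ k) ^ (1 / q) * (C * 2 ^ k * (k : ℝ) ^ (q - 1)) ^ (1 / q) :=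
            mul_le_mul_of_nonneg_left hk1.1 (by positivity)
        _ = ((k : ℝ) / 2 ^ k * (C * 2 ^ k * (k : ℝ) ^ (q - 1))) ^ (1 / q) :=
            (Real.mul_rpow (by positivity) (by positivity)).symm
        _ = (C * (k : ℝ) ^ q) ^ (1 / q) := by
            congr 1
            have h2 : (k : ℝ) ^ q = k * (k : ℝ) ^ (q - 1) := by
              rw [Real.rpow_sub_one hk0.ne']
              field_simp
            rw [h2]
            field_simp
        _ = C ^ (1 / q) * k := by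
            rw [Real.mul_rpow (by positivity) (by positivity), ← Real.rpow_mul hk0.le]
            congr 1
            rw [mul_one_div_cancel hq0.ne', Real.rpow_one]
    calc d k * ((k : ℝ) / 2 ^ k) ^ (1 / q) = d k * (((k : ℝ) / 2 ^ k) ^ (1 / q) * Lq q C k) / Lq q C k := by
          field_simp
      _ ≤ d k * (C ^ (1 / q) * k) / Lq q C k := div_le_div_of_nonneg_right (mul_le_mul_of_nonneg_left h1 hdk) hLpos.le
      _ = C ^ (1 / q) * (d k * k / Lq q C k) := by ring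
  · -- the moment is too large
    have hinf := infinite_of_mom hq hM
    obtain ⟨a0, ha0, -⟩ := hinf 0
    have hx1 : Tendsto (fun k : ℕ => 2 ^ k) atTop (atTop : Filter ℕ) := tendsto_pow_atTop_atTop_of_one_lt (by norm_num)
    have h1 := (hM.comp hx1).eventually_lt_const (show Real.Gamma (q + 1) < Real.Gamma (q + 1) + 1 / 2 by linarith)
    obtain ⟨k, ⟨⟨⟨hk1, hk2⟩, hk3⟩, hk4⟩⟩ :=
      (((hS.and_eventually h1).and_eventually hL).and_eventually (eventually_ge_atTop (max a0 1))).exists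
    have hk5 : a0 ≤ 2 ^ k := by
      have h2 : k < 2 ^ k := Nat.lt_two_pow_self
      have := le_max_left a0 1
      omega
    have hk6 : 1 ≤ k := (le_max_right a0 1).trans hk4
    have hk0 : (0 : ℝ) < k := by exact_mod_cast hk6
    have h2 := Fq_ge_of_hole hq0.le hk1 ⟨a0, ha0, hk5⟩ (hinf (2 ^ k))
    simp only [Function.comp] at hk2
    push_cast at hk2
    rw [Real.log_pow] at hk2
    have hl : 0 < Real.log 2 := Real.log_pos (by norm_num)
    have hl1 : Real.log 2 ≤ 1 := by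
      have := Real.log_two_lt_d9
      linarith
    rw [div_lt_iff₀ (by positivity)] at hk2
    -- `(L)^q ≥ (Γ + 1) 2^k k^(q-1)`
    have h3 : (Real.Gamma (q + 1) + 1) * (2 ^ k * (k : ℝ) ^ (q - 1)) ≤ (Lq q C k : ℝ) ^ q := by
      have h4 : (C * 2 ^ k * (k : ℝ) ^ (q - 1)) ≤ (2 * (Lq q C k : ℝ)) ^ q := by
        have h5 := Real.rpow_le_rpow (by positivity) hk3.2 hq0.le
        rw [← Real.rpow_mul (by positivity), one_div_mul_cancel hq0.ne', Real.rpow_one] at h5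
        exact h5
      rw [Real.mul_rpow (by norm_num) (by positivity), hC] at h4
      have h5 : (0 : ℝ) < (2 : ℝ) ^ q := by positivity
      have h6 : (2 : ℝ) ^ q * ((Real.Gamma (q + 1) + 1) * (2 ^ k * (k : ℝ) ^ (q - 1))) ≤ (2 : ℝ) ^ q * (Lq q C k : ℝ) ^ q := by
        linarith
      exact le_of_mul_le_mul_left h6 h5
    have h4 : (2 : ℝ) ^ k * (k * Real.log 2) ^ (q - 1) ≤ 2 ^ k * (k : ℝ) ^ (q - 1) := by
      apply mul_le_mul_of_nonneg_left _ (by positivity)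
      apply Real.rpow_le_rpow (by positivity) _ (by linarith)
      exact mul_le_of_le_one_right hk0.le hl1
    have h5 : (0 : ℝ) < 2 ^ k * (k : ℝ) ^ (q - 1) := by positivity
    nlinarith

/-- **(2) The exact threshold for the moments.** -/
theorem mom_iff (J : MJobs) {q : ℝ} (hq : 1 < q) {d : ℕ → ℝ} (hd : ∀ k, 0 ≤ d k) :
    AllModels d (Mom q) ↔ Summable (fun k : ℕ => d k * ((k : ℝ) / 2 ^ k) ^ (1 / q)) := by
  refine ⟨fun h => ?_, all_mom J hq hd⟩
  by_contra hns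
  exact not_allModels_of (some_notMom J hq hd hns) (fun S hS hM => hS hM) h

end Pool.Agent.Q120.MG
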